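import Pool.Agent.W2helper22.PC.HighQ

/-! # The errors `exp (-c a / log a)` are admissible -/

set_option autoImplicit false

open Filter Topology Real

namespace Pool.Agent.W2helper22.PC

lemma log_pos2 (m : ℕ) : 0 < Real.log ((m : ℝ) + 2) := Real.log_pos (by
  have : (0 : ℝ) ≤ m := Nat.cast_nonneg m
  linarith)

lemma log_ge2 (m : ℕ) : Real.log 2 ≤ Real.log ((m : ℝ) + 2) := Real.log_le_log (by norm_num) (by
  have : (0 : ℝ) ≤ m := Nat.cast_nonneg m
  linarith)

/-- the sequence `K (m + 1) log (m + 2)` -/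
noncomputable def lgs (K : ℝ) (m : ℕ) : ℝ := K * ((m : ℝ) + 1) * Real.log ((m : ℝ) + 2)

lemma lgs_qseq {K : ℝ} (hK : 0 < K) : QSeq (lgs K) where
  mono := by
    intro i j hij
    have h1 : (i : ℝ) ≤ j := by exact_mod_cast hij
    have h0 : (0 : ℝ) ≤ i := Nat.cast_nonneg i
    unfold lgs
    refine mul_le_mul (by nlinarith) (Real.log_le_log (by linarith) (by linarith))
      (log_pos2 i).le (by positivity)
  pos := by
    unfold lgs
    have := log_pos2 0
    positivity
  div := by
    intro hs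
    -- telescoping with `log log`
    have h1 : Summable fun m : ℕ => (((m : ℝ) + 1) * Real.log ((m : ℝ) + 2))⁻¹ := by
      refine (hs.mul_left K).congr fun m => ?_
      unfold lgs
      rw [mul_assoc, mul_inv K, ← mul_assoc, mul_inv_cancel₀ hK.ne', one_mul]
    set u : ℕ → ℝ := fun m => Real.log (Real.log ((m : ℝ) + 2)) with hu
    have h2 : ∀ m : ℕ, u (m + 1) - u m ≤ (((m : ℝ) + 1) * Real.log ((m : ℝ) + 2))⁻¹ := by
      intro m
      have hm : (0 : ℝ) ≤ m := Nat.cast_nonneg m
      have hl := log_pos2 m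
      have hl1 : 0 < Real.log (((m + 1 : ℕ) : ℝ) + 2) := log_pos2 (m + 1)
      have e1 : u (m + 1) - u m = Real.log (Real.log (((m + 1 : ℕ) : ℝ) + 2) /
          Real.log ((m : ℝ) + 2)) := (Real.log_div hl1.ne' hl.ne').symm
      rw [e1]
      have h3 := Real.log_le_sub_one_of_pos (div_pos hl1 hl)
      refine h3.trans ?_
      have h4 : Real.log (((m + 1 : ℕ) : ℝ) + 2) - Real.log ((m : ℝ) + 2) ≤ 1 / ((m : ℝ) + 1) := by
        rw [← Real.log_div (by positivity) (by positivity)]
        refine (Real.log_le_sub_one_of_pos (by positivity)).trans ?_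
        push_cast
        rw [div_sub_one (by positivity), div_le_div_iff₀ (by positivity) (by positivity)]
        nlinarith
      rw [div_sub_one hl.ne', mul_inv, ← div_eq_mul_inv]
      refine div_le_div_of_nonneg_right ?_ hl.le
      rw [← one_div]
      exact h4
    have h5 : ∀ n : ℕ, u n - u 0 ≤ ∑' m : ℕ, (((m : ℝ) + 1) * Real.log ((m : ℝ) + 2))⁻¹ := by
      intro n
      rw [← Finset.sum_range_sub u n]
      refine (Finset.sum_le_sum fun m _ => h2 m).trans ?_
      refine h1.sum_le_tsum _ fun m _ => ?_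
      have := log_pos2 m
      positivity
    have h6 : Tendsto u atTop atTop := by
      refine Real.tendsto_log_atTop.comp (Real.tendsto_log_atTop.comp ?_)
      exact tendsto_atTop_add_const_right _ _ tendsto_natCast_atTop_atTop
    obtain ⟨n, hn⟩ := (h6.eventually_gt_atTop
      (u 0 + ∑' m : ℕ, (((m : ℝ) + 1) * Real.log ((m : ℝ) + 2))⁻¹)).exists
    have := h5 n
    linarith

/-- products of logarithms -/
lemma log_prod (k : ℕ) : Real.log ((k : ℝ) + 2) ^ k ≤
    Real.exp 2 ^ k * ∏ m ∈ Finset.range k, Real.log ((m : ℝ) + 2) := by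
  induction k with
  | zero => simp
  | succ k ih =>
    have hk : (0 : ℝ) ≤ k := Nat.cast_nonneg k
    have hl := log_pos2 k
    have hl1 : 0 < Real.log (((k + 1 : ℕ) : ℝ) + 2) := log_pos2 (k + 1)
    have hlog2 : (1 : ℝ) / 2 ≤ Real.log ((k : ℝ) + 2) := by
      have := log_ge2 k
      have := Real.log_two_gt_d9
      linarith
    rw [Finset.prod_range_succ]
    -- the ratio
    have h1 : Real.log (((k + 1 : ℕ) : ℝ) + 2) ≤
        Real.log ((k : ℝ) + 2) * Real.exp (2 / ((k : ℝ) + 1)) := by
      have h4 : Real.log (((k + 1 : ℕ) : ℝ) + 2) - Real.log ((k : ℝ) + 2) ≤ 1 / ((k : ℝ) + 1) := by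
        rw [← Real.log_div (by positivity) (by positivity)]
        refine (Real.log_le_sub_one_of_pos (by positivity)).trans ?_
        push_cast
        rw [div_sub_one (by positivity), div_le_div_iff₀ (by positivity) (by positivity)]
        nlinarith
      have h5 := Real.add_one_le_exp (2 / ((k : ℝ) + 1))
      have h6 : 1 / ((k : ℝ) + 1) ≤ Real.log ((k : ℝ) + 2) * (2 / ((k : ℝ) + 1)) := by
        have : 0 ≤ 1 / ((k : ℝ) + 1) := by positivity
        have e : Real.log ((k : ℝ) + 2) * (2 / ((k : ℝ) + 1)) =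
            2 * Real.log ((k : ℝ) + 2) * (1 / ((k : ℝ) + 1)) := by ring
        rw [e]
        nlinarith
      nlinarith
    have h2 : Real.log (((k + 1 : ℕ) : ℝ) + 2) ^ (k + 1) ≤
        Real.log ((k : ℝ) + 2) ^ (k + 1) * Real.exp 2 := by
      refine (pow_le_pow_left₀ hl1.le h1 (k + 1)).trans (le_of_eq ?_)
      rw [mul_pow, ← Real.exp_nat_mul]
      congr 2
      push_cast
      field_simp
    refine h2.trans ?_
    rw [pow_succ, pow_succ]
    have h3 : 0 < Real.exp 2 := Real.exp_pos 2
    have h4 := mul_le_mul_of_nonneg_right ih (mul_pos hl h3).le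
    refine le_trans (le_of_eq ?_) (h4.trans (le_of_eq ?_))
    · ring
    · ring

/-- eventually `log a · log (a + 2) ≤ c √a` -/
lemma log_small {c : ℝ} (hc : 0 < c) : ∃ a1 : ℝ, 1 ≤ a1 ∧ ∀ a, a1 ≤ a →
    2 * Real.sqrt a * Real.log a * Real.log (a + 2) ≤ c * a := by
  have h1 := (Real.isLittleO_pow_log_id_atTop (n := 2)).bound (show 0 < c / 16 by positivity)
  obtain ⟨y0, hy0⟩ := eventually_atTop.1 h1
  refine ⟨max 2 (y0 ^ 2 + 1), le_max_of_le_left (by norm_num), fun a ha => ?_⟩
  have ha2 : 2 ≤ a := (le_max_left _ _).trans ha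
  have hay : y0 ^ 2 ≤ a := by
    have := (le_max_right 2 (y0 ^ 2 + 1)).trans ha
    linarith
  have hy : y0 ≤ Real.sqrt a := Real.le_sqrt_of_sq_le hay
  have h2 := hy0 (Real.sqrt a) hy
  rw [Real.norm_eq_abs, Real.norm_eq_abs, id, abs_of_nonneg (Real.sqrt_nonneg a),
    abs_of_nonneg (sq_nonneg _)] at h2
  have hls : Real.log (Real.sqrt a) = Real.log a / 2 := Real.log_sqrt (by linarith)
  rw [hls] at h2
  have hla : 0 < Real.log a := Real.log_pos (by linarith)
  have h3 : Real.log (a + 2) ≤ 2 * Real.log a := by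
    have : Real.log (a + 2) ≤ Real.log (a ^ 2) := Real.log_le_log (by linarith) (by nlinarith)
    rwa [Real.log_pow] at this
  have hsq : Real.sqrt a * Real.sqrt a = a := Real.mul_self_sqrt (by linarith)
  have hs0 := Real.sqrt_nonneg a
  calc 2 * Real.sqrt a * Real.log a * Real.log (a + 2) ≤
        2 * Real.sqrt a * Real.log a * (2 * Real.log a) :=
        mul_le_mul_of_nonneg_left h3 (by positivity)
    _ = 16 * Real.sqrt a * (Real.log a / 2) ^ 2 := by ring
    _ ≤ 16 * Real.sqrt a * (c / 16 * Real.sqrt a) := mul_le_mul_of_nonneg_left h2 (by positivity)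
    _ = c * (Real.sqrt a * Real.sqrt a) := by ring
    _ = c * a := by rw [hsq]

/-- **the example** -/
theorem log_example {c : ℝ} (hc : 0 < c) : ∃ (B : ℝ) (β : ℕ → ℝ), 0 < B ∧ QSeq β ∧
    ∀ a, 0 < a → ∀ k : ℕ, Real.exp (-(c * a / Real.log (a + 2))) ≤
      B * ∏ m ∈ Finset.range k, (β m / a) ^ 2 := by
  obtain ⟨a1, ha1, hsm⟩ := log_small hc
  set K : ℝ := 6 / c * Real.exp 2 + 2 with hK
  have hK2 : 2 ≤ K := by
    have : 0 ≤ 6 / c * Real.exp 2 := by positivity
    linarith
  have hK0 : 0 < K := by linarith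
  have hβ1 : ∀ m, 1 ≤ lgs K m := by
    intro m
    have h1 := log_ge2 m
    have h2 := Real.log_two_gt_d9
    have hm : (0 : ℝ) ≤ m := Nat.cast_nonneg m
    unfold lgs
    have h3 : 2 * 1 ≤ K * ((m : ℝ) + 1) := by nlinarith
    nlinarith
  set B : ℝ := a1 ^ (2 * ⌈a1⌉₊) with hB
  have hB1 : 1 ≤ B := one_le_pow₀ ha1
  have hP1 : ∀ k, 1 ≤ ∏ m ∈ Finset.range k, lgs K m ^ 2 := by
    intro k
    refine Finset.prod_induction _ (fun x => 1 ≤ x) (fun x y hx hy => ?_) le_rfl fun m _ =>
      one_le_pow₀ (hβ1 m)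
    nlinarith
  refine ⟨B, lgs K, by linarith, lgs_qseq hK0, fun a ha k => ?_⟩
  have hla2 : 0 < Real.log (a + 2) := Real.log_pos (by linarith)
  have e0 : ∏ m ∈ Finset.range k, (lgs K m / a) ^ 2 =
      (∏ m ∈ Finset.range k, lgs K m ^ 2) / a ^ (2 * k) := by
    simp_rw [div_pow, Finset.prod_div_distrib, Finset.prod_const, Finset.card_range, ← pow_mul]
  have hak : 0 < a ^ (2 * k) := by positivity
  rw [e0, mul_div_assoc', le_div_iff₀ hak]
  have hk0 : (0 : ℝ) ≤ k := Nat.cast_nonneg k
  have hexp1 : Real.exp (-(c * a / Real.log (a + 2))) ≤ 1 := by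
    rw [Real.exp_le_one_iff]
    have : 0 ≤ c * a / Real.log (a + 2) := by positivity
    linarith
  rcases le_or_gt a (((k : ℝ) + 2) ^ 2) with hreg | hreg
  · -- the first regime
    have hlk := log_pos2 k
    have h1 : Real.log (a + 2) ≤ 3 * Real.log ((k : ℝ) + 2) := by
      have h2 : a + 2 ≤ ((k : ℝ) + 2) ^ 3 := by nlinarith [sq_nonneg ((k : ℝ) + 2)]
      have h3 := Real.log_le_log (by linarith) h2
      rw [Real.log_pow] at h3
      exact_mod_cast h3
    set x : ℝ := c * a / (3 * Real.log ((k : ℝ) + 2)) with hx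
    have hx0 : 0 < x := by positivity
    have h2 : Real.exp (-(c * a / Real.log (a + 2))) ≤ Real.exp (-x) := by
      refine Real.exp_le_exp.2 (neg_le_neg ?_)
      exact div_le_div_of_nonneg_left (by positivity) hla2 h1
    have h3 : x ^ (2 * k) / ((2 * k).factorial : ℝ) ≤ Real.exp x :=
      Real.pow_div_factorial_le_exp x hx0.le (2 * k)
    have hf0 : (0 : ℝ) < ((2 * k).factorial : ℝ) := by exact_mod_cast Nat.factorial_pos _
    rw [div_le_iff₀ hf0] at h3
    have h4 : Real.exp (-x) * x ^ (2 * k) ≤ ((2 * k).factorial : ℝ) := by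
      have := mul_le_mul_of_nonneg_left h3 (Real.exp_pos (-x)).le
      rwa [← mul_assoc, ← Real.exp_add, neg_add_cancel, Real.exp_zero, one_mul] at this
    have e1 : a = x * (3 * Real.log ((k : ℝ) + 2) / c) := by
      rw [hx]
      field_simp
    have h5 : ((2 * k).factorial : ℝ) ≤ 2 ^ (2 * k) * (k.factorial : ℝ) ^ 2 := by
      have h6 : (2 * k).choose k * k.factorial * (2 * k - k).factorial = (2 * k).factorial :=
        Nat.choose_mul_factorial_mul_factorial (by omega)
      have h7 : 2 * k - k = k := by omega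
      rw [h7] at h6
      rw [← h6]
      push_cast
      have h8 : ((2 * k).choose k : ℝ) ≤ 2 ^ (2 * k) := by
        exact_mod_cast Nat.choose_le_two_pow (2 * k) k
      have h9 : (0 : ℝ) ≤ (k.factorial : ℝ) ^ 2 := by positivity
      nlinarith [mul_le_mul_of_nonneg_right h8 h9]
    have h6 := log_prod k
    have h7 : (6 / c) ^ k * Real.log ((k : ℝ) + 2) ^ k * (k.factorial : ℝ) ≤
        ∏ m ∈ Finset.range k, lgs K m := by
      have e2 : ∏ m ∈ Finset.range k, lgs K m =
          K ^ k * (k.factorial : ℝ) * ∏ m ∈ Finset.range k, Real.log ((m : ℝ) + 2) := by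
        unfold lgs
        rw [Finset.prod_mul_distrib, Finset.prod_mul_distrib, Finset.prod_const,
          Finset.card_range]
        congr 2
        rw [← Finset.prod_range_add_one_eq_factorial]
        push_cast
        rfl
      rw [e2]
      have hQ0 : 0 ≤ ∏ m ∈ Finset.range k, Real.log ((m : ℝ) + 2) :=
        Finset.prod_nonneg fun m _ => (log_pos2 m).le
      have h8 : (6 / c * Real.exp 2) ^ k ≤ K ^ k :=
        pow_le_pow_left₀ (by positivity) (by linarith) k
      calc (6 / c) ^ k * Real.log ((k : ℝ) + 2) ^ k * (k.factorial : ℝ) ≤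
            (6 / c) ^ k * (Real.exp 2 ^ k * ∏ m ∈ Finset.range k, Real.log ((m : ℝ) + 2)) *
              (k.factorial : ℝ) := by gcongr
        _ = (6 / c * Real.exp 2) ^ k * (k.factorial : ℝ) *
              ∏ m ∈ Finset.range k, Real.log ((m : ℝ) + 2) := by
            rw [mul_pow]
            ring
        _ ≤ _ := by gcongr
    have h8 : ((6 / c) ^ k * Real.log ((k : ℝ) + 2) ^ k * (k.factorial : ℝ)) ^ 2 ≤
        ∏ m ∈ Finset.range k, lgs K m ^ 2 := by
      rw [Finset.prod_pow]
      exact pow_le_pow_left₀ (by positivity) h7 2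
    have hP0 : 0 ≤ ∏ m ∈ Finset.range k, lgs K m ^ 2 := by linarith [hP1 k]
    calc Real.exp (-(c * a / Real.log (a + 2))) * a ^ (2 * k) ≤ Real.exp (-x) * a ^ (2 * k) :=
          mul_le_mul_of_nonneg_right h2 hak.le
      _ = (Real.exp (-x) * x ^ (2 * k)) * (3 * Real.log ((k : ℝ) + 2) / c) ^ (2 * k) := by
          conv_lhs => rw [e1, mul_pow]
          have : x * (3 * Real.log ((k : ℝ) + 2) / c) = a := e1.symm
          ring
      _ ≤ (2 ^ (2 * k) * (k.factorial : ℝ) ^ 2) * (3 * Real.log ((k : ℝ) + 2) / c) ^ (2 * k) :=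
          mul_le_mul_of_nonneg_right (h4.trans h5) (by positivity)
      _ = (2 * (3 * Real.log ((k : ℝ) + 2) / c)) ^ (2 * k) * (k.factorial : ℝ) ^ 2 := by
          rw [mul_pow]
          ring
      _ = ((6 / c) ^ k * Real.log ((k : ℝ) + 2) ^ k * (k.factorial : ℝ)) ^ 2 := by
          have e3 : 2 * (3 * Real.log ((k : ℝ) + 2) / c) = 6 / c * Real.log ((k : ℝ) + 2) := by ring
          rw [e3, pow_mul', mul_pow, ← mul_pow]
      _ ≤ ∏ m ∈ Finset.range k, lgs K m ^ 2 := h8
      _ ≤ B * ∏ m ∈ Finset.range k, lgs K m ^ 2 := by nlinarith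
  · -- the second regime
    have h1 : Real.exp (-(c * a / Real.log (a + 2))) * a ^ (2 * k) ≤ B := by
      have ha4 : 4 < a := by nlinarith
      rcases le_or_gt a1 a with h | h
      · have hs := hsm a h
        have hla : 0 < Real.log a := Real.log_pos (by linarith)
        have hk : (k : ℝ) ≤ Real.sqrt a := by
          refine Real.le_sqrt_of_sq_le ?_
          nlinarith
        have h2 : a ^ (2 * k) = Real.exp (2 * k * Real.log a) := by
          rw [show 2 * (k : ℝ) * Real.log a = ((2 * k : ℕ) : ℝ) * Real.log a by push_cast; ring,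
            Real.exp_nat_mul, Real.exp_log ha]
        rw [h2, ← Real.exp_add]
        refine le_trans ?_ hB1
        rw [Real.exp_le_one_iff]
        have h3 : 2 * (k : ℝ) * Real.log a ≤ c * a / Real.log (a + 2) := by
          rw [le_div_iff₀ hla2]
          refine le_trans ?_ hs
          gcongr
        linarith
      · have h2 : a ^ (2 * k) ≤ a1 ^ (2 * k) := pow_le_pow_left₀ ha.le h.le _
        have h3 : k ≤ ⌈a1⌉₊ := by
          have : (k : ℝ) ≤ a1 := by nlinarith
          exact_mod_cast this.trans (Nat.le_ceil a1)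
        have h4 : a1 ^ (2 * k) ≤ B := pow_le_pow_right₀ ha1 (by omega)
        calc Real.exp (-(c * a / Real.log (a + 2))) * a ^ (2 * k) ≤ 1 * a ^ (2 * k) :=
              mul_le_mul_of_nonneg_right hexp1 hak.le
          _ ≤ B := by linarith
    have := hP1 k
    nlinarith

end Pool.Agent.W2helper22.PC
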