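import Mathlib

/-! # Quasi-analyticity for a sequence of derivatives (Bang's argument) -/

set_option autoImplicit false

open Filter Topology Set

namespace Pool.Agent.W2helper22.PC

variable {u : ℕ → ℝ → ℝ} {M b : ℕ → ℝ}

/-- one direction of one step of Bang's argument -/
lemma bang_dir (hu : ∀ n x, HasDerivAt (u n) (u (n + 1) x) x) (hM0 : ∀ n, 0 < M n)
    (hb0 : ∀ n, 0 < b n) (hM : ∀ n, M (n + 1) = M n * b n) (hb : Monotone b)
    (hle : ∀ n x, |u n x| ≤ M n) {N : ℕ} {x : ℝ}
    (hx : ∀ j : ℕ, |u j x| ≤ Real.exp ((j : ℝ) - (N + 1)) * M j) {σ : ℝ} (hσ : |σ| = 1) {j : ℕ}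
    (hj : j ≤ N + 1) :
    ∀ t : ℝ, 0 ≤ t → |u j (x + σ * t)| ≤
      Real.exp ((j : ℝ) - (N + 1)) * M j * Real.exp (Real.exp 1 * b N * t) := by
  refine Nat.decreasingInduction' (m := j) (n := N + 1)
    (P := fun j => ∀ t : ℝ, 0 ≤ t → |u j (x + σ * t)| ≤
      Real.exp ((j : ℝ) - (N + 1)) * M j * Real.exp (Real.exp 1 * b N * t)) ?_ hj ?_
  · intro k hk _ ih t ht
    have hbN := hb0 N
    have hcd : ∀ s : ℝ, HasDerivAt (fun s => u k (x + σ * s)) (u (k + 1) (x + σ * s) * σ) s := by
      intro s
      have h1 : HasDerivAt (fun s : ℝ => x + σ * s) σ s := by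
        simpa using ((hasDerivAt_id s).const_mul σ).const_add x
      exact (hu k (x + σ * s)).comp s h1
    have hB : ∀ s : ℝ, HasDerivAt
        (fun s => Real.exp ((k : ℝ) - (N + 1)) * M k * Real.exp (Real.exp 1 * b N * s))
        (Real.exp ((k : ℝ) - (N + 1)) * M k *
          (Real.exp (Real.exp 1 * b N * s) * (Real.exp 1 * b N))) s := by
      intro s
      have h1 : HasDerivAt (fun s : ℝ => Real.exp 1 * b N * s) (Real.exp 1 * b N) s := by
        simpa using (hasDerivAt_id s).const_mul (Real.exp 1 * b N)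
      exact (h1.exp).const_mul _
    have key := image_norm_le_of_norm_deriv_right_le_deriv_boundary
      (f := fun s => u k (x + σ * s)) (f' := fun s => u (k + 1) (x + σ * s) * σ) (a := 0) (b := t)
      (fun s _ => (hcd s).continuousAt.continuousWithinAt)
      (fun s _ => (hcd s).hasDerivWithinAt) (by
        show |u k (x + σ * 0)| ≤ _
        rw [mul_zero, add_zero, mul_zero, Real.exp_zero, mul_one]
        exact hx k) hB (by
        intro s hs
        show |u (k + 1) (x + σ * s) * σ| ≤ _
        rw [abs_mul, hσ, mul_one]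
        refine (ih s hs.1).trans ?_
        rw [hM k]
        have hkN : k ≤ N := Nat.lt_succ_iff.1 hk
        have e1 : Real.exp (((k + 1 : ℕ) : ℝ) - (N + 1)) =
            Real.exp ((k : ℝ) - (N + 1)) * Real.exp 1 := by
          rw [← Real.exp_add]
          congr 1
          push_cast
          ring
        rw [e1]
        have h1 : b k ≤ b N := hb hkN
        have h2 : 0 ≤ Real.exp ((k : ℝ) - (N + 1)) * Real.exp 1 * M k *
            Real.exp (Real.exp 1 * b N * s) := by
          have := hM0 k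
          positivity
        calc Real.exp ((k : ℝ) - (N + 1)) * Real.exp 1 * (M k * b k) *
              Real.exp (Real.exp 1 * b N * s) =
              (Real.exp ((k : ℝ) - (N + 1)) * Real.exp 1 * M k *
                Real.exp (Real.exp 1 * b N * s)) * b k := by ring
          _ ≤ (Real.exp ((k : ℝ) - (N + 1)) * Real.exp 1 * M k *
                Real.exp (Real.exp 1 * b N * s)) * b N := mul_le_mul_of_nonneg_left h1 h2
          _ = _ := by ring)
    exact key (right_mem_Icc.2 ht)
  · intro t ht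
    refine (hle _ _).trans ?_
    have e1 : Real.exp (((N + 1 : ℕ) : ℝ) - (N + 1)) = 1 := by
      push_cast
      rw [sub_self, Real.exp_zero]
    rw [e1, one_mul]
    have h1 := hM0 (N + 1)
    have h2 := hb0 N
    exact le_mul_of_one_le_right h1.le (Real.one_le_exp (by positivity))

lemma bang_step (hu : ∀ n x, HasDerivAt (u n) (u (n + 1) x) x) (hM0 : ∀ n, 0 < M n)
    (hb0 : ∀ n, 0 < b n) (hM : ∀ n, M (n + 1) = M n * b n) (hb : Monotone b)
    (hle : ∀ n x, |u n x| ≤ M n) {N : ℕ} {x y : ℝ}
    (hx : ∀ j : ℕ, |u j x| ≤ Real.exp ((j : ℝ) - (N + 1)) * M j)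
    (hxy : |y - x| ≤ (Real.exp 1 * b N)⁻¹) (j : ℕ) :
    |u j y| ≤ Real.exp ((j : ℝ) - N) * M j := by
  by_cases hj : j ≤ N
  · obtain ⟨σ, hσ, h1⟩ : ∃ σ : ℝ, |σ| = 1 ∧ y = x + σ * |y - x| := by
      rcases abs_cases (y - x) with ⟨h, _⟩ | ⟨h, _⟩
      · exact ⟨1, abs_one, by rw [h]; ring⟩
      · exact ⟨-1, by rw [abs_neg, abs_one], by rw [h]; ring⟩
    have h2 := bang_dir hu hM0 hb0 hM hb hle hx hσ (hj.trans (Nat.le_succ N)) _ (abs_nonneg (y - x))
    rw [← h1] at h2
    refine h2.trans ?_
    have hbN := hb0 N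
    have h3 : Real.exp 1 * b N * |y - x| ≤ 1 := by
      have hp : 0 < Real.exp 1 * b N := by positivity
      calc Real.exp 1 * b N * |y - x| ≤ Real.exp 1 * b N * (Real.exp 1 * b N)⁻¹ :=
            mul_le_mul_of_nonneg_left hxy hp.le
        _ = 1 := mul_inv_cancel₀ hp.ne'
    have h4 : Real.exp (Real.exp 1 * b N * |y - x|) ≤ Real.exp 1 := Real.exp_le_exp.2 h3
    have e1 : Real.exp ((j : ℝ) - N) = Real.exp ((j : ℝ) - (N + 1)) * Real.exp 1 := by
      rw [← Real.exp_add]
      congr 1
      ring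
    rw [e1]
    have h5 : 0 ≤ Real.exp ((j : ℝ) - (N + 1)) * M j := by
      have := hM0 j
      positivity
    calc Real.exp ((j : ℝ) - (N + 1)) * M j * Real.exp (Real.exp 1 * b N * |y - x|) ≤
          Real.exp ((j : ℝ) - (N + 1)) * M j * Real.exp 1 := mul_le_mul_of_nonneg_left h4 h5
      _ = _ := by ring
  · push Not at hj
    refine (hle j y).trans ?_
    refine le_mul_of_one_le_left (hM0 j).le (Real.one_le_exp ?_)
    have : (N : ℝ) ≤ j := by exact_mod_cast hj.le
    linarith

/-- **quasi-analyticity**: a function all of whose derivatives vanish at a point and are bounded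
by a logarithmically convex sequence whose successive quotients `b` satisfy `∑ 1 / b = ∞` is zero -/
theorem bang (hu : ∀ n x, HasDerivAt (u n) (u (n + 1) x) x) (hM0 : ∀ n, 0 < M n)
    (hb0 : ∀ n, 0 < b n) (hM : ∀ n, M (n + 1) = M n * b n) (hb : Monotone b)
    (hdiv : ¬ Summable fun n => (b n)⁻¹)
    (hle : ∀ n x, |u n x| ≤ M n) {x₀ : ℝ} (h0 : ∀ n, u n x₀ = 0) (y : ℝ) : u 0 y = 0 := by
  have he : (0 : ℝ) < Real.exp 1 := Real.exp_pos 1
  have key : ∀ n : ℕ, |u 0 y| ≤ Real.exp (-(n : ℝ)) * M 0 := by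
    intro n
    -- a long enough chain
    obtain ⟨N, hnN, hN⟩ : ∃ N, n ≤ N ∧ |y - x₀| ≤ ∑ k ∈ Finset.Ico n N, (Real.exp 1 * b k)⁻¹ := by
      have hdiv' : ¬ Summable fun n => (Real.exp 1 * b n)⁻¹ := by
        intro h
        apply hdiv
        have := h.mul_left (Real.exp 1)
        refine this.congr fun k => ?_
        rw [mul_inv, ← mul_assoc, mul_inv_cancel₀ he.ne', one_mul]
      have h1 := (not_summable_iff_tendsto_nat_atTop_of_nonneg (f := fun n => (Real.exp 1 * b n)⁻¹)
        (fun k => by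
          have := hb0 k
          positivity)).1 hdiv'
      obtain ⟨N, hN1, hN2⟩ := ((h1.eventually_ge_atTop
        (|y - x₀| + ∑ k ∈ Finset.range n, (Real.exp 1 * b k)⁻¹)).and
          (eventually_ge_atTop n)).exists
      refine ⟨N, hN2, ?_⟩
      rw [Finset.sum_Ico_eq_sub _ hN2]
      linarith
    have main : ∀ z, |z - x₀| ≤ ∑ k ∈ Finset.Ico n N, (Real.exp 1 * b k)⁻¹ →
        ∀ j : ℕ, |u j z| ≤ Real.exp ((j : ℝ) - n) * M j := by
      refine Nat.decreasingInduction' (m := n) (n := N)
        (P := fun m => ∀ z, |z - x₀| ≤ ∑ k ∈ Finset.Ico m N, (Real.exp 1 * b k)⁻¹ →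
          ∀ j : ℕ, |u j z| ≤ Real.exp ((j : ℝ) - m) * M j) ?_ hnN ?_
      · intro m hm _ ih z hz
        rw [Finset.sum_eq_sum_Ico_succ_bot hm] at hz
        set S := ∑ k ∈ Finset.Ico (m + 1) N, (Real.exp 1 * b k)⁻¹ with hS
        have hS0 : 0 ≤ S := Finset.sum_nonneg fun k _ => by
          have := hb0 k
          positivity
        have hm0 : 0 ≤ (Real.exp 1 * b m)⁻¹ := by
          have := hb0 m
          positivity
        obtain ⟨w, hw1, hw2⟩ : ∃ w, |w - x₀| ≤ S ∧ |z - w| ≤ (Real.exp 1 * b m)⁻¹ := by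
          by_cases hc : |z - x₀| ≤ S
          · exact ⟨z, hc, by simpa using hm0⟩
          · push Not at hc
            rcases abs_cases (z - x₀) with ⟨h, _⟩ | ⟨h, _⟩
            · refine ⟨x₀ + S, by rw [add_sub_cancel_left, abs_of_nonneg hS0], ?_⟩
              rw [h] at hz hc
              rw [abs_le]
              constructor <;> linarith
            · refine ⟨x₀ - S, by
                rw [sub_sub_cancel_left, abs_neg, abs_of_nonneg hS0], ?_⟩
              rw [h] at hz hc
              rw [abs_le]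
              constructor <;> linarith
        intro j
        refine bang_step hu hM0 hb0 hM hb hle (x := w) (fun i => ?_) hw2 j
        have := ih w hw1 i
        push_cast at this
        exact this
      · intro z hz j
        rw [Finset.Ico_self, Finset.sum_empty] at hz
        have : z = x₀ := by
          have := abs_nonpos_iff.1 hz
          linarith
        rw [this, h0, abs_zero]
        have := hM0 j
        positivity
    have := main y hN 0
    rw [Nat.cast_zero, zero_sub] at this
    exact this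
  have hlim : Tendsto (fun n : ℕ => Real.exp (-(n : ℝ)) * M 0) atTop (𝓝 (0 * M 0)) :=
    (Real.tendsto_exp_neg_atTop_nhds_zero.comp tendsto_natCast_atTop_atTop).mul_const _
  rw [zero_mul] at hlim
  exact abs_nonpos_iff.1 (ge_of_tendsto' hlim key)

end Pool.Agent.W2helper22.PC
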