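import Pool.Agent.Y744.PCR.HighPass2
import Pool.Agent.W2helper22.PC.Bang

/-! # A function with a spectral gap around `0` whose negative part decays quasi-analytically
vanishes -/

set_option autoImplicit false

open MeasureTheory Filter Topology Real ProbabilityTheory
open scoped ContDiff ENNReal
open Pool.Agent.Y744

namespace Pool.Agent.W2helper22.PC

/-- nondecreasing sequences of positive numbers with divergent sum of reciprocals -/
structure QSeq (β : ℕ → ℝ) : Prop where
  mono : Monotone β
  pos : 0 < β 0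
  div : ¬ Summable fun i => (β i)⁻¹

lemma QSeq.pos' {β : ℕ → ℝ} (h : QSeq β) (i : ℕ) : 0 < β i := h.pos.trans_le (h.mono (Nat.zero_le i))

section

variable {κ : ℝ} {H η : ℝ → ℝ} {B : ℝ}

lemma eint_mul_ct (hm : Measurable H) (hB : ∀ x, |H x| ≤ B * (1 + x ^ 2)) {K : ℝ → ℝ}
    (hK : TK κ K) : Integrable fun x => H x * ct K x := int_mul_ct hm hB hK

/-- the even moments of the positive part -/
lemma momentQ (hκ : 0 < κ) (hm : Measurable H) (hB : ∀ x, |H x| ≤ B * (1 + x ^ 2))
    (hη : Measurable η) (hη0 : ∀ x, 0 ≤ η x) (hl : ∀ᵐ x, -(η x) ≤ H x)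
    (hz : ∀ K, TK κ K → ∫ x, H x * ct K x = 0) (k : ℕ) :
    ∫⁻ x, ENNReal.ofReal (max (H x) 0 * x ^ (2 * k)) ≤
      ∫⁻ x, ENNReal.ofReal (η x * x ^ (2 * k)) := by
  obtain ⟨K, hK, hpos, h0, hle⟩ := exists_pos hκ
  set M := ct K 0 with hM
  have hmp : Measurable fun x => max (H x) 0 := hm.max measurable_const
  have hmn : Measurable fun x => max (-H x) 0 := hm.neg.max measurable_const
  -- for each `ε`
  have main : ∀ ε : ℝ, 0 < ε → ε ≤ 1 →
      ∫⁻ x, ENNReal.ofReal (max (H x) 0 * x ^ (2 * k) * ct K (ε * x)) ≤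
      ∫⁻ x, ENNReal.ofReal (η x * x ^ (2 * k) * M) := by
    intro ε hε hε1
    obtain ⟨K', hK', e'⟩ := (hK.dil hε).x_pow_mul k
    have hK'' : TK κ K' := hK'.mono (by nlinarith)
    have e : ∀ x, ct K' x = x ^ (2 * k) * ct K (ε * x) := fun x => by
      rw [← e', TK.ct_dil K hε]
    have hnn : ∀ x, 0 ≤ ct K' x := fun x => by
      rw [e, pow_mul]
      have := hpos (ε * x)
      positivity
    have h1 := hz K' hK''
    have hi := int_mul_ct hm hB hK''
    have hBp : ∀ x, |max (H x) 0| ≤ B * (1 + x ^ 2) := fun x => by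
      rw [abs_of_nonneg (le_max_right _ _)]
      have := hB x
      exact max_le ((le_abs_self _).trans this) ((abs_nonneg _).trans this)
    have hBn : ∀ x, |max (-H x) 0| ≤ B * (1 + x ^ 2) := fun x => by
      rw [abs_of_nonneg (le_max_right _ _)]
      have := hB x
      exact max_le ((neg_le_abs _).trans this) ((abs_nonneg _).trans this)
    have hip := int_mul_ct hmp hBp hK''
    have hin := int_mul_ct hmn hBn hK''
    have h2 : ∫ x, max (H x) 0 * ct K' x = ∫ x, max (-H x) 0 * ct K' x := by
      have h3 : ∫ x, H x * ct K' x = (∫ x, max (H x) 0 * ct K' x) -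
          ∫ x, max (-H x) 0 * ct K' x := by
        rw [← integral_sub hip hin]
        refine integral_congr_ae (Eventually.of_forall fun x => ?_)
        show H x * ct K' x = max (H x) 0 * ct K' x - max (-H x) 0 * ct K' x
        have : H x = max (H x) 0 - max (-H x) 0 := by
          rcases le_total (H x) 0 with h | h
          · rw [max_eq_right h, max_eq_left (by linarith)]; ring
          · rw [max_eq_left h, max_eq_right (by linarith)]; ring
        nth_rewrite 1 [this]
        ring
      linarith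
    have h4 : ∫⁻ x, ENNReal.ofReal (max (H x) 0 * ct K' x) =
        ∫⁻ x, ENNReal.ofReal (max (-H x) 0 * ct K' x) := by
      rw [← ofReal_integral_eq_lintegral_ofReal hip (Eventually.of_forall fun x =>
        mul_nonneg (le_max_right _ _) (hnn x)), h2,
        ofReal_integral_eq_lintegral_ofReal hin (Eventually.of_forall fun x =>
        mul_nonneg (le_max_right _ _) (hnn x))]
    have h5 : ∫⁻ x, ENNReal.ofReal (max (H x) 0 * x ^ (2 * k) * ct K (ε * x)) =
        ∫⁻ x, ENNReal.ofReal (max (H x) 0 * ct K' x) := by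
      refine lintegral_congr fun x => ?_
      rw [e, mul_assoc]
    rw [h5, h4]
    refine lintegral_mono_ae ?_
    filter_upwards [hl] with x hx
    refine ENNReal.ofReal_le_ofReal ?_
    rw [e, ← mul_assoc]
    have h6 : max (-H x) 0 ≤ η x := max_le (by linarith) (hη0 x)
    have h7 : 0 ≤ x ^ (2 * k) := by rw [pow_mul]; positivity
    have h8 : 0 ≤ η x * x ^ (2 * k) := mul_nonneg (hη0 x) h7
    exact mul_le_mul (mul_le_mul_of_nonneg_right h6 h7) (hle _) (hpos _) h8
  -- Fatou
  have hMpos : ENNReal.ofReal M ≠ 0 := by simpa using h0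
  have key : ∫⁻ x, ENNReal.ofReal (max (H x) 0 * x ^ (2 * k) * M) ≤
      ∫⁻ x, ENNReal.ofReal (η x * x ^ (2 * k) * M) := by
    set f : ℕ → ℝ → ℝ≥0∞ := fun n x =>
      ENNReal.ofReal (max (H x) 0 * x ^ (2 * k) * ct K (1 / ((n : ℝ) + 1) * x)) with hf
    have hfm : ∀ n, Measurable (f n) := fun n => by
      refine ENNReal.measurable_ofReal.comp ?_
      exact (hmp.mul (by fun_prop)).mul (hK.ct_cont.measurable.comp (by fun_prop))
    have hlim : ∀ x, liminf (fun n => f n x) atTop =
        ENNReal.ofReal (max (H x) 0 * x ^ (2 * k) * M) := by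
      intro x
      refine Tendsto.liminf_eq ?_
      refine ENNReal.tendsto_ofReal ?_
      refine tendsto_const_nhds.mul ?_
      have h1 : Tendsto (fun n : ℕ => 1 / ((n : ℝ) + 1) * x) atTop (𝓝 (0 * x)) :=
        tendsto_one_div_add_atTop_nhds_zero_nat.mul_const x
      rw [zero_mul] at h1
      exact (hK.ct_cont.tendsto 0).comp h1
    calc ∫⁻ x, ENNReal.ofReal (max (H x) 0 * x ^ (2 * k) * M) =
          ∫⁻ x, liminf (fun n => f n x) atTop := lintegral_congr fun x => (hlim x).symm
      _ ≤ liminf (fun n => ∫⁻ x, f n x) atTop := lintegral_liminf_le hfm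
      _ ≤ _ := by
          refine liminf_le_of_le (by isBoundedDefault) fun b hb => ?_
          obtain ⟨n, hn⟩ := hb.exists
          refine hn.trans (main _ (by positivity) ?_)
          rw [div_le_one (by positivity)]
          have : (0 : ℝ) ≤ n := Nat.cast_nonneg n
          linarith
  have hr : ∀ (u : ℝ → ℝ), Measurable u → (∀ x, 0 ≤ u x) →
      ∫⁻ x, ENNReal.ofReal (u x * M) = (∫⁻ x, ENNReal.ofReal (u x)) * ENNReal.ofReal M := by
    intro u hu hu0
    have h1 := lintegral_mul_const (μ := (volume : Measure ℝ)) (ENNReal.ofReal M)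
      (f := fun x => ENNReal.ofReal (u x)) hu.ennreal_ofReal
    rw [← h1]
    exact lintegral_congr fun x => ENNReal.ofReal_mul (hu0 x)
  have hx2 : ∀ x : ℝ, 0 ≤ x ^ (2 * k) := fun x => by rw [pow_mul]; positivity
  rw [hr (fun x => max (H x) 0 * x ^ (2 * k)) (hmp.mul (by fun_prop))
      (fun x => mul_nonneg (le_max_right _ _) (hx2 x)),
    hr (fun x => η x * x ^ (2 * k)) (hη.mul (by fun_prop))
      (fun x => mul_nonneg (hη0 x) (hx2 x))] at key
  exact (ENNReal.mul_le_mul_iff_left hMpos ENNReal.ofReal_ne_top).1 key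

/-- the Fourier transform vanishes near `0` -/
lemma cos_zeroQ (hκ : 0 < κ) (hm : Measurable H) (hi : Integrable H)
    (hz : ∀ K, TK κ K → ∫ x, H x * ct K x = 0) {s : ℝ} (hs : |s| ≤ κ / 2) :
    ∫ x, H x * Real.cos (2 * π * s * x) = 0 := by
  obtain ⟨K, hK, hpos, h0, hle⟩ := exists_pos (κ := κ / 2) (by positivity)
  set M := ct K 0 with hM
  have h1 : Tendsto (fun n : ℕ => ∫ x, H x * (Real.cos (2 * π * s * x) *
      ct K (1 / ((n : ℝ) + 1) * x))) atTop (𝓝 (∫ x, H x * (Real.cos (2 * π * s * x) * M))) := by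
    refine tendsto_integral_of_dominated_convergence (fun x => |H x| * M) (fun n => ?_)
      (hi.abs.mul_const M) (fun n => Eventually.of_forall fun x => ?_)
      (Eventually.of_forall fun x => ?_)
    · exact (hm.mul ((by fun_prop : Measurable fun x : ℝ => Real.cos (2 * π * s * x)).mul
        (hK.ct_cont.measurable.comp (by fun_prop)))).aestronglyMeasurable
    · rw [Real.norm_eq_abs, abs_mul, abs_mul, abs_of_nonneg (hpos _)]
      refine mul_le_mul_of_nonneg_left ?_ (abs_nonneg _)
      calc |Real.cos (2 * π * s * x)| * ct K (1 / ((n : ℝ) + 1) * x) ≤ 1 * M :=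
            mul_le_mul (Real.abs_cos_le_one _) (hle _) (hpos _) zero_le_one
        _ = M := one_mul M
    · refine tendsto_const_nhds.mul (tendsto_const_nhds.mul ?_)
      have h1 : Tendsto (fun n : ℕ => 1 / ((n : ℝ) + 1) * x) atTop (𝓝 (0 * x)) :=
        tendsto_one_div_add_atTop_nhds_zero_nat.mul_const x
      rw [zero_mul] at h1
      exact (hK.ct_cont.tendsto 0).comp h1
  have h2 : ∀ n : ℕ, ∫ x, H x * (Real.cos (2 * π * s * x) * ct K (1 / ((n : ℝ) + 1) * x)) = 0 := by
    intro n
    have hε : (0 : ℝ) < 1 / ((n : ℝ) + 1) := by positivity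
    have hε1 : 1 / ((n : ℝ) + 1) ≤ 1 := by
      rw [div_le_one (by positivity)]
      have : (0 : ℝ) ≤ n := Nat.cast_nonneg n
      linarith
    have hK' := (hK.dil hε).modul s
    have hK'' := hK'.mono (κ' := κ) (by nlinarith)
    have h3 := hz _ hK''
    rw [← h3]
    refine integral_congr_ae (Eventually.of_forall fun x => ?_)
    show H x * (Real.cos (2 * π * s * x) * ct K (1 / ((n : ℝ) + 1) * x)) = H x * _
    rw [(hK.dil hε).ct_modul, TK.ct_dil K hε]
  simp_rw [h2] at h1
  have h3 := tendsto_nhds_unique h1 tendsto_const_nhds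
  have h4 : ∫ x, H x * (Real.cos (2 * π * s * x) * M) =
      (∫ x, H x * Real.cos (2 * π * s * x)) * M := by
    rw [← integral_mul_const]
    refine integral_congr_ae (Eventually.of_forall fun x => ?_)
    show H x * (Real.cos (2 * π * s * x) * M) = H x * Real.cos (2 * π * s * x) * M
    ring
  rw [h4] at h3
  exact (mul_eq_zero.1 h3).resolve_right h0.ne'

/-- the cosine transform of `H` and its derivatives -/
noncomputable def uu (H : ℝ → ℝ) (n : ℕ) (t : ℝ) : ℝ :=
  ∫ x, H x * x ^ n * Real.cos (t * x + n * (π / 2))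

lemma cos_quarter (y : ℝ) (n : ℕ) :
    -Real.sin (y + n * (π / 2)) = Real.cos (y + (n + 1 : ℕ) * (π / 2)) := by
  push_cast
  rw [show y + ((n : ℝ) + 1) * (π / 2) = (y + n * (π / 2)) + π / 2 by ring, Real.cos_add_pi_div_two]

lemma uu_bound (hi : ∀ n : ℕ, Integrable fun x => H x * x ^ n) (n : ℕ) (t : ℝ) :
    |uu H n t| ≤ ∫ x, |H x| * |x| ^ n := by
  unfold uu
  refine abs_integral_le_integral_abs.trans ?_
  refine integral_mono_of_nonneg (Eventually.of_forall fun _ => abs_nonneg _) ?_
    (Eventually.of_forall fun x => ?_)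
  · refine (hi n).abs.congr (Eventually.of_forall fun x => ?_)
    show |H x * x ^ n| = |H x| * |x| ^ n
    rw [abs_mul, abs_pow]
  · show |H x * x ^ n * Real.cos (t * x + n * (π / 2))| ≤ |H x| * |x| ^ n
    rw [abs_mul, abs_mul, abs_pow]
    exact mul_le_of_le_one_right (by positivity) (Real.abs_cos_le_one _)

lemma uu_deriv (hm : Measurable H) (hi : ∀ n : ℕ, Integrable fun x => H x * x ^ n) (n : ℕ) (t : ℝ) :
    HasDerivAt (uu H n) (uu H (n + 1) t) t := by
  have key := hasDerivAt_integral_of_dominated_loc_of_deriv_le (μ := volume) (𝕜 := ℝ)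
    (F := fun t x => H x * x ^ n * Real.cos (t * x + n * (π / 2)))
    (F' := fun t x => H x * x ^ (n + 1) * Real.cos (t * x + (n + 1 : ℕ) * (π / 2))) (x₀ := t)
    (s := Set.univ) (bound := fun x => |H x * x ^ (n + 1)|) Filter.univ_mem
    (Eventually.of_forall fun t => ((hm.mul (by fun_prop)).mul (by fun_prop)).aestronglyMeasurable)
    ?_ ((hm.mul (by fun_prop)).mul (by fun_prop)).aestronglyMeasurable
    (Eventually.of_forall fun x t _ => ?_) (hi (n + 1)).abs
    (Eventually.of_forall fun x t _ => ?_)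
  · exact key.2
  · refine (hi n).mono ((hm.mul (by fun_prop)).mul (by fun_prop)).aestronglyMeasurable
      (Eventually.of_forall fun x => ?_)
    rw [norm_mul]
    exact mul_le_of_le_one_right (norm_nonneg _) (by
      rw [Real.norm_eq_abs]; exact Real.abs_cos_le_one _)
  · show ‖H x * x ^ (n + 1) * Real.cos (t * x + (n + 1 : ℕ) * (π / 2))‖ ≤ |H x * x ^ (n + 1)|
    rw [norm_mul, Real.norm_eq_abs]
    exact mul_le_of_le_one_right (abs_nonneg _) (by
      rw [Real.norm_eq_abs]; exact Real.abs_cos_le_one _)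
  · show HasDerivAt (fun t => H x * x ^ n * Real.cos (t * x + n * (π / 2))) _ t
    have h1 : HasDerivAt (fun t : ℝ => t * x + n * (π / 2)) x t := by
      simpa using ((hasDerivAt_id t).mul_const x).add_const (n * (π / 2))
    have h2 := (h1.cos).const_mul (H x * x ^ n)
    refine h2.congr_deriv ?_
    rw [← cos_quarter]
    ring

end

/-- **a function with a spectral gap and a quasi-analytically small negative part vanishes** -/
theorem high_passQ {κ : ℝ} {H η : ℝ → ℝ} {B B₁ : ℝ} {β : ℕ → ℝ} (hκ : 0 < κ) (hm : Measurable H)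
    (he : ∀ x, H (-x) = H x) (hB : ∀ x, |H x| ≤ B * (1 + x ^ 2)) (hη : Measurable η)
    (hη0 : ∀ x, 0 ≤ η x) (hβ : QSeq β) (hB₁ : 0 < B₁)
    (hmom : ∀ k : ℕ, ∫⁻ x, ENNReal.ofReal (η x * x ^ (2 * k)) ≤
      ENNReal.ofReal (B₁ * ∏ i ∈ Finset.range k, β i ^ 2))
    (hl : ∀ᵐ x, -(η x) ≤ H x)
    (hz : ∀ K, TK κ K → ∫ x, H x * ct K x = 0) : ∀ᵐ x, H x = 0 := by
  set P : ℝ → ℝ := fun x => max (H x) 0 with hP
  set N : ℝ → ℝ := fun x => max (-H x) 0 with hN
  have hPm : Measurable P := hm.max measurable_const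
  have hNm : Measurable N := hm.neg.max measurable_const
  have hP0 : ∀ x, 0 ≤ P x := fun x => le_max_right _ _
  have hN0 : ∀ x, 0 ≤ N x := fun x => le_max_right _ _
  have hPN : ∀ x, H x = P x - N x := by
    intro x
    simp only [hP, hN]
    rcases le_total (H x) 0 with h | h
    · rw [max_eq_right h, max_eq_left (by linarith)]; ring
    · rw [max_eq_left h, max_eq_right (by linarith)]; ring
  have hPNa : ∀ x, |H x| = P x + N x := by
    intro x
    simp only [hP, hN]
    rcases le_total (H x) 0 with h | h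
    · rw [max_eq_right h, max_eq_left (by linarith), abs_of_nonpos h]; ring
    · rw [max_eq_left h, max_eq_right (by linarith), abs_of_nonneg h]; ring
  set Pi2 : ℕ → ℝ := fun k => ∏ i ∈ Finset.range k, β i ^ 2 with hPi2
  have hPi20 : ∀ k, 0 < Pi2 k := fun k => Finset.prod_pos fun i _ => by
    have := hβ.pos' i
    positivity
  have hx2 : ∀ (k : ℕ) (x : ℝ), 0 ≤ x ^ (2 * k) := fun k x => by rw [pow_mul]; positivity
  -- moments
  have m1 : ∀ k : ℕ, ∫⁻ x, ENNReal.ofReal (P x * x ^ (2 * k)) ≤ ENNReal.ofReal (B₁ * Pi2 k) :=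
    fun k => (momentQ hκ hm hB hη hη0 hl hz k).trans (hmom k)
  have m2 : ∀ k : ℕ, ∫⁻ x, ENNReal.ofReal (N x * x ^ (2 * k)) ≤ ENNReal.ofReal (B₁ * Pi2 k) := by
    intro k
    refine le_trans (lintegral_mono_ae ?_) (hmom k)
    filter_upwards [hl] with x hx
    refine ENNReal.ofReal_le_ofReal (mul_le_mul_of_nonneg_right ?_ (hx2 k x))
    exact max_le (by linarith) (hη0 x)
  have i1 : ∀ k : ℕ, Integrable fun x => P x * x ^ (2 * k) := fun k => by
    refine ⟨(hPm.mul (by fun_prop)).aestronglyMeasurable, ?_⟩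
    rw [hasFiniteIntegral_iff_ofReal (Eventually.of_forall fun x => mul_nonneg (hP0 x) (hx2 k x))]
    exact (m1 k).trans_lt ENNReal.ofReal_lt_top
  have i2 : ∀ k : ℕ, Integrable fun x => N x * x ^ (2 * k) := fun k => by
    refine ⟨(hNm.mul (by fun_prop)).aestronglyMeasurable, ?_⟩
    rw [hasFiniteIntegral_iff_ofReal (Eventually.of_forall fun x => mul_nonneg (hN0 x) (hx2 k x))]
    exact (m2 k).trans_lt ENNReal.ofReal_lt_top
  have n1 : ∀ k : ℕ, ∫ x, P x * x ^ (2 * k) ≤ B₁ * Pi2 k := fun k => by
    have h1 := m1 k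
    rw [← ofReal_integral_eq_lintegral_ofReal (i1 k)
      (Eventually.of_forall fun x => mul_nonneg (hP0 x) (hx2 k x))] at h1
    exact (ENNReal.ofReal_le_ofReal_iff (by have := hPi20 k; positivity)).1 h1
  have n2 : ∀ k : ℕ, ∫ x, N x * x ^ (2 * k) ≤ B₁ * Pi2 k := fun k => by
    have h1 := m2 k
    rw [← ofReal_integral_eq_lintegral_ofReal (i2 k)
      (Eventually.of_forall fun x => mul_nonneg (hN0 x) (hx2 k x))] at h1
    exact (ENNReal.ofReal_le_ofReal_iff (by have := hPi20 k; positivity)).1 h1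
  have i3 : ∀ k : ℕ, Integrable fun x => |H x| * x ^ (2 * k) := fun k => by
    refine ((i1 k).add (i2 k)).congr (Eventually.of_forall fun x => ?_)
    show P x * x ^ (2 * k) + N x * x ^ (2 * k) = |H x| * x ^ (2 * k)
    rw [hPNa]
    ring
  have n3 : ∀ k : ℕ, ∫ x, |H x| * x ^ (2 * k) ≤ 2 * B₁ * Pi2 k := fun k => by
    have e : ∫ x, |H x| * x ^ (2 * k) = (∫ x, P x * x ^ (2 * k)) + ∫ x, N x * x ^ (2 * k) := by
      rw [← integral_add (i1 k) (i2 k)]
      refine integral_congr_ae (Eventually.of_forall fun x => ?_)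
      show |H x| * x ^ (2 * k) = P x * x ^ (2 * k) + N x * x ^ (2 * k)
      rw [hPNa]
      ring
    rw [e]
    have := n1 k
    have := n2 k
    linarith
  -- odd moments
  have hodd : ∀ (k : ℕ) (x : ℝ), |x| ^ (2 * k + 1) ≤
      (β k * x ^ (2 * k) + (β k)⁻¹ * x ^ (2 * (k + 1))) / 2 := by
    intro k x
    have hbk := hβ.pos' k
    have e1 : x ^ (2 * k) = (|x| ^ k) ^ 2 := by rw [← pow_mul, mul_comm k 2, pow_mul, pow_mul, sq_abs]
    have e2 : x ^ (2 * (k + 1)) = (|x| ^ k) ^ 2 * |x| ^ 2 := by
      rw [mul_add, pow_add, e1, mul_one, sq_abs]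
    have e3 : |x| ^ (2 * k + 1) = (|x| ^ k) ^ 2 * |x| := by
      rw [pow_succ, ← pow_mul, mul_comm k 2]
    rw [e1, e2, e3]
    have h1 : |x| ≤ (β k + (β k)⁻¹ * |x| ^ 2) / 2 := by
      have h2 : 0 ≤ (β k - |x|) ^ 2 * (β k)⁻¹ := by positivity
      have h3 : (β k - |x|) ^ 2 * (β k)⁻¹ = β k - 2 * |x| + (β k)⁻¹ * |x| ^ 2 := by
        field_simp
        ring
      linarith
    calc (|x| ^ k) ^ 2 * |x| ≤ (|x| ^ k) ^ 2 * ((β k + (β k)⁻¹ * |x| ^ 2) / 2) :=
          mul_le_mul_of_nonneg_left h1 (by positivity)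
      _ = _ := by ring
  have i4 : ∀ n : ℕ, Integrable fun x => |H x| * |x| ^ n := by
    intro n
    rcases Nat.even_or_odd' n with ⟨k, rfl | rfl⟩
    · refine (i3 k).congr (Eventually.of_forall fun x => ?_)
      show |H x| * x ^ (2 * k) = |H x| * |x| ^ (2 * k)
      rw [pow_mul, pow_mul |x|, sq_abs]
    · refine ((((i3 k).const_mul (β k)).add ((i3 (k + 1)).const_mul (β k)⁻¹)).div_const 2).mono'
        (hm.abs.mul (by fun_prop)).aestronglyMeasurable (Eventually.of_forall fun x => ?_)
      rw [Real.norm_eq_abs, abs_of_nonneg (by positivity)]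
      show |H x| * |x| ^ (2 * k + 1) ≤
        (β k * (|H x| * x ^ (2 * k)) + (β k)⁻¹ * (|H x| * x ^ (2 * (k + 1)))) / 2
      have := mul_le_mul_of_nonneg_left (hodd k x) (abs_nonneg (H x))
      linarith
  have i5 : ∀ n : ℕ, Integrable fun x => H x * x ^ n := by
    intro n
    refine (i4 n).mono' (hm.mul (by fun_prop)).aestronglyMeasurable (Eventually.of_forall fun x => ?_)
    rw [Real.norm_eq_abs, abs_mul, abs_pow]
  have hHi : Integrable H := by
    have := i5 0
    simpa using this
  -- the sequences for the theorem of Bang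
  set b : ℕ → ℝ := fun n => β (n / 2) with hb
  set M : ℕ → ℝ := fun n => 2 * B₁ * ∏ i ∈ Finset.range n, b i with hMd
  have hb0 : ∀ n, 0 < b n := fun n => hβ.pos' _
  have hbm : Monotone b := fun m n h => hβ.mono (Nat.div_le_div_right h)
  have hM0 : ∀ n, 0 < M n := fun n => by
    have : 0 < ∏ i ∈ Finset.range n, b i := Finset.prod_pos fun i _ => hb0 i
    simp only [hMd]
    positivity
  have hMs : ∀ n, M (n + 1) = M n * b n := fun n => by
    simp only [hMd]
    rw [Finset.prod_range_succ]
    ring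
  have hbd : ¬ Summable fun n => (b n)⁻¹ := by
    intro h
    apply hβ.div
    have h1 := h.comp_injective (i := fun k : ℕ => 2 * k) (fun a b h => by
      have : 2 * a = 2 * b := h
      omega)
    refine h1.congr fun k => ?_
    show (β (2 * k / 2))⁻¹ = (β k)⁻¹
    rw [Nat.mul_div_cancel_left k (by norm_num)]
  have hMe : ∀ k : ℕ, M (2 * k) = 2 * B₁ * Pi2 k := by
    intro k
    induction k with
    | zero => simp [hMd, hPi2]
    | succ k ih =>
      rw [show 2 * (k + 1) = 2 * k + 1 + 1 by ring, hMs, hMs, ih]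
      have e1 : b (2 * k) = β k := by
        simp only [hb]
        rw [Nat.mul_div_cancel_left k (by norm_num)]
      have e2 : b (2 * k + 1) = β k := by
        simp only [hb]
        congr 1
        omega
      rw [e1, e2]
      simp only [hPi2]
      rw [Finset.prod_range_succ]
      ring
  have hmb : ∀ n : ℕ, ∫ x, |H x| * |x| ^ n ≤ M n := by
    intro n
    rcases Nat.even_or_odd' n with ⟨k, rfl | rfl⟩
    · rw [hMe]
      refine le_trans (le_of_eq ?_) (n3 k)
      refine integral_congr_ae (Eventually.of_forall fun x => ?_)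
      show |H x| * |x| ^ (2 * k) = |H x| * x ^ (2 * k)
      rw [pow_mul, pow_mul x, sq_abs]
    · have h1 : ∫ x, |H x| * |x| ^ (2 * k + 1) ≤
          ∫ x, (β k * (|H x| * x ^ (2 * k)) + (β k)⁻¹ * (|H x| * x ^ (2 * (k + 1)))) / 2 := by
        refine integral_mono (i4 _)
          ((((i3 k).const_mul (β k)).add ((i3 (k + 1)).const_mul (β k)⁻¹)).div_const 2)
          fun x => ?_
        show |H x| * |x| ^ (2 * k + 1) ≤
          (β k * (|H x| * x ^ (2 * k)) + (β k)⁻¹ * (|H x| * x ^ (2 * (k + 1)))) / 2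
        have := mul_le_mul_of_nonneg_left (hodd k x) (abs_nonneg (H x))
        linarith
      refine h1.trans ?_
      rw [integral_div, integral_add ((i3 k).const_mul _) ((i3 (k + 1)).const_mul _),
        integral_const_mul, integral_const_mul]
      have h2 := n3 k
      have h3 := n3 (k + 1)
      have hbk := hβ.pos' k
      have e1 : Pi2 (k + 1) = Pi2 k * β k ^ 2 := by
        simp only [hPi2]
        rw [Finset.prod_range_succ]
      rw [e1] at h3
      have e2 : b (2 * k) = β k := by
        simp only [hb]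
        rw [Nat.mul_div_cancel_left k (by norm_num)]
      rw [hMs, hMe, e2]
      have h4 : β k * ∫ x, |H x| * x ^ (2 * k) ≤ β k * (2 * B₁ * Pi2 k) :=
        mul_le_mul_of_nonneg_left h2 hbk.le
      have h5 : (β k)⁻¹ * ∫ x, |H x| * x ^ (2 * (k + 1)) ≤ (β k)⁻¹ * (2 * B₁ * (Pi2 k * β k ^ 2)) :=
        mul_le_mul_of_nonneg_left h3 (by positivity)
      have e3 : (β k)⁻¹ * (2 * B₁ * (Pi2 k * β k ^ 2)) = 2 * B₁ * Pi2 k * β k := by
        field_simp
      rw [e3] at h5
      linarith
  -- the transform vanishes near zero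
  have hpi := Real.pi_pos
  have hzero : ∀ n : ℕ, ∀ t : ℝ, |t| < π * κ → uu H n t = 0 := by
    intro n
    induction n with
    | zero =>
      intro t ht
      have h1 := cos_zeroQ hκ hm hHi hz (s := t / (2 * π)) (by
        rw [abs_div, abs_of_pos (by positivity : (0 : ℝ) < 2 * π), div_le_iff₀ (by positivity)]
        linarith)
      rw [← h1]
      unfold uu
      refine integral_congr_ae (Eventually.of_forall fun x => ?_)
      show H x * x ^ 0 * Real.cos (t * x + (0 : ℕ) * (π / 2)) = H x * Real.cos (2 * π * (t / (2 * π)) * x)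
      have : 2 * π * (t / (2 * π)) = t := by field_simp
      rw [this]
      simp
    | succ n ih =>
      intro t ht
      have h1 := uu_deriv hm i5 n t
      have h2 : uu H n =ᶠ[𝓝 t] fun _ => (0 : ℝ) := by
        have h3 : ∀ᶠ y in 𝓝 t, |y| < π * κ := continuous_abs.continuousAt.eventually_lt_const ht
        filter_upwards [h3] with y hy using ih y hy
      have h4 : HasDerivAt (uu H n) 0 t := (hasDerivAt_const t (0 : ℝ)).congr_of_eventuallyEq h2
      exact h1.unique h4
  have hall : ∀ t : ℝ, ∫ x, H x * Real.cos (t * x) = 0 := by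
    intro t
    have h1 := bang (u := uu H) (M := M) (b := b) (fun n x => uu_deriv hm i5 n x) hM0 hb0 hMs hbm hbd
      (fun n x => (uu_bound i5 n x).trans (hmb n)) (x₀ := 0)
      (fun n => hzero n 0 (by rw [abs_zero]; positivity)) t
    rw [← h1]
    unfold uu
    refine integral_congr_ae (Eventually.of_forall fun x => ?_)
    show H x * Real.cos (t * x) = H x * x ^ 0 * Real.cos (t * x + (0 : ℕ) * (π / 2))
    simp
  -- uniqueness
  have hPi1 : Integrable P := by
    have := i1 0
    simpa using this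
  have hNi1 : Integrable N := by
    have := i2 0
    simpa using this
  have : IsFiniteMeasure (den P) := isFiniteMeasure_withDensity_ofReal hPi1.2
  have : IsFiniteMeasure (den N) := isFiniteMeasure_withDensity_ofReal hNi1.2
  have hchar : charFun (den P) = charFun (den N) := by
    funext t
    rw [charFun_apply_real, charFun_apply_real, den_int hPm hP0, den_int hNm hN0, ← sub_eq_zero,
      ← integral_sub]
    · have hs0 : ∫ x, H x * Real.sin (t * x) = 0 := by
        have h1 : ∫ x, H x * Real.sin (t * x) = ∫ x, H (-x) * Real.sin (t * (-x)) :=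
          (integral_neg_eq_self (fun x => H x * Real.sin (t * x)) volume).symm
        have h2 : ∫ x, H (-x) * Real.sin (t * (-x)) = -∫ x, H x * Real.sin (t * x) := by
          rw [← integral_neg]
          refine integral_congr_ae (Eventually.of_forall fun x => ?_)
          show H (-x) * Real.sin (t * (-x)) = -(H x * Real.sin (t * x))
          rw [he, mul_neg, Real.sin_neg]
          ring
        linarith
      have hic : Integrable fun x => H x * Real.cos (t * x) :=
        hHi.mul_bdd (c := 1) (by fun_prop) (Eventually.of_forall fun x => by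
          rw [Real.norm_eq_abs]; exact Real.abs_cos_le_one _)
      have his : Integrable fun x => H x * Real.sin (t * x) :=
        hHi.mul_bdd (c := 1) (by fun_prop) (Eventually.of_forall fun x => by
          rw [Real.norm_eq_abs]; exact Real.abs_sin_le_one _)
      have e : ∀ x : ℝ, (P x : ℂ) * Complex.exp (t * x * Complex.I) -
          (N x : ℂ) * Complex.exp (t * x * Complex.I) =
          ((H x * Real.cos (t * x) : ℝ) : ℂ) + ((H x * Real.sin (t * x) : ℝ) : ℂ) * Complex.I := by
        intro x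
        rw [Complex.exp_mul_I, hPN x]
        push_cast
        ring
      simp_rw [e]
      rw [integral_add hic.ofReal (his.ofReal.mul_const _), integral_mul_const]
      have j1 : ∫ x, ((H x * Real.cos (t * x) : ℝ) : ℂ) = ((∫ x, H x * Real.cos (t * x) : ℝ) : ℂ) :=
        integral_ofReal
      have j2 : ∫ x, ((H x * Real.sin (t * x) : ℝ) : ℂ) = ((∫ x, H x * Real.sin (t * x) : ℝ) : ℂ) :=
        integral_ofReal
      rw [j1, j2, hall, hs0]
      simp
    · exact (hPi1.ofReal (𝕜 := ℂ)).mul_bdd (c := 1) (by fun_prop)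
        (Eventually.of_forall fun x => by
          rw [show (t : ℂ) * x * Complex.I = ((t * x : ℝ) : ℂ) * Complex.I by push_cast; ring,
            Complex.norm_exp_ofReal_mul_I])
    · exact (hNi1.ofReal (𝕜 := ℂ)).mul_bdd (c := 1) (by fun_prop)
        (Eventually.of_forall fun x => by
          rw [show (t : ℂ) * x * Complex.I = ((t * x : ℝ) : ℂ) * Complex.I by push_cast; ring,
            Complex.norm_exp_ofReal_mul_I])
  have hmeas := Measure.ext_of_charFun hchar
  have hfin : ∫⁻ x, ENNReal.ofReal (P x) ≠ ⊤ := hPi1.lintegral_lt_top.ne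
  have heq := (withDensity_eq_iff hPm.ennreal_ofReal.aemeasurable hNm.ennreal_ofReal.aemeasurable
    hfin).1 hmeas
  filter_upwards [heq] with x hx
  have h1 : P x = N x := (ENNReal.ofReal_eq_ofReal_iff (hP0 x) (hN0 x)).1 hx
  rw [hPN x, h1, sub_self]

end Pool.Agent.W2helper22.PC
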