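import Mathlib

/-! # Bounded solutions of a convolution equation with positive weights -/

set_option autoImplicit false

namespace Pool.Agent.W2helper22.PC

variable {ι : Type*} [Fintype ι] {p ℓ : ι → ℝ} {f : ℝ → ℝ} {C : ℝ}

lemma liou_le (hp : ∀ i, 0 < p i) (hb : ∀ x, |f x| ≤ C)
    (hf : ∀ x, ∑ i, p i * (f (x + ℓ i) - f x) = 0) (j : ι) (x : ℝ) : f (x + ℓ j) ≤ f x := by
  classical
  by_contra hcon
  push Not at hcon
  set h : ℝ → ℝ := fun x => f (x + ℓ j) - f x with hh
  have hC : 0 ≤ C := (abs_nonneg _).trans (hb 0)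
  have hhb : ∀ x, h x ≤ 2 * C := fun x => by
    have h1 := abs_le.1 (hb (x + ℓ j))
    have h2 := abs_le.1 (hb x)
    simp only [hh]
    linarith [h1.2, h2.1]
  have hbdd : BddAbove (Set.range h) := ⟨2 * C, by rintro _ ⟨y, rfl⟩; exact hhb y⟩
  set M := sSup (Set.range h) with hM
  have hMle : ∀ y, h y ≤ M := fun y => le_csSup hbdd ⟨y, rfl⟩
  have hM0 : 0 < M := lt_of_lt_of_le (by simp only [hh]; linarith) (hMle x)
  set P := ∑ i, p i with hP
  have hpj := hp j
  have hPj : p j ≤ P := Finset.single_le_sum (f := p) (fun i _ => (hp i).le) (Finset.mem_univ j)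
  set q := P / p j with hq
  have hq1 : 1 ≤ q := (one_le_div hpj).2 hPj
  have hharm : ∀ y, ∑ i, p i * h (y + ℓ i) = P * h y := by
    intro y
    have h1 := hf (y + ℓ j)
    have h2 := hf y
    have h3 : ∑ i, p i * h (y + ℓ i) - P * h y =
        (∑ i, p i * (f (y + ℓ j + ℓ i) - f (y + ℓ j))) - ∑ i, p i * (f (y + ℓ i) - f y) := by
      rw [hP, Finset.sum_mul, ← Finset.sum_sub_distrib, ← Finset.sum_sub_distrib]
      refine Finset.sum_congr rfl fun i _ => ?_
      simp only [hh]
      rw [show y + ℓ i + ℓ j = y + ℓ j + ℓ i by ring]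
      ring
    rw [h1, h2, sub_zero] at h3
    linarith
  have hstep : ∀ y ε, M - ε ≤ h y → M - q * ε ≤ h (y + ℓ j) := by
    intro y ε hy
    have h1 := hharm y
    have h2 : ∑ i, p i * h (y + ℓ i) ≤ p j * h (y + ℓ j) + (P - p j) * M := by
      rw [← Finset.add_sum_erase _ _ (Finset.mem_univ j)]
      have h3 : ∑ i ∈ Finset.univ.erase j, p i * h (y + ℓ i) ≤
          ∑ i ∈ Finset.univ.erase j, p i * M :=
        Finset.sum_le_sum fun i _ => mul_le_mul_of_nonneg_left (hMle _) (hp i).le
      have h4 : ∑ i ∈ Finset.univ.erase j, p i * M = (P - p j) * M := by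
        rw [← Finset.sum_mul, hP, ← Finset.add_sum_erase _ _ (Finset.mem_univ j)]
        ring
      linarith
    have hP0 : 0 < P := hpj.trans_le hPj
    have h5 : P * (M - ε) ≤ P * h y := mul_le_mul_of_nonneg_left hy hP0.le
    have h6 : p j * (M - q * ε) ≤ p j * h (y + ℓ j) := by
      have e : p j * (q * ε) = P * ε := by
        rw [hq]
        field_simp
      rw [mul_sub, e]
      nlinarith
    exact le_of_mul_le_mul_left h6 hpj
  obtain ⟨N, hN⟩ := exists_nat_gt (4 * C / M)
  have hNM : 4 * C < N * M := by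
    rwa [div_lt_iff₀ hM0] at hN
  have hq0 : 0 < q := by linarith
  set ε := M / (2 * q ^ N) with hε
  have hε0 : 0 < ε := by positivity
  obtain ⟨_, ⟨y, rfl⟩, hy⟩ := exists_lt_of_lt_csSup (Set.range_nonempty h)
    (show M - ε < sSup (Set.range h) by rw [← hM]; linarith)
  have hit : ∀ n : ℕ, M - q ^ n * ε ≤ h (y + n * ℓ j) := by
    intro n
    induction n with
    | zero => simpa using hy.le
    | succ n ih =>
      have h1 := hstep _ _ ih
      have e1 : q ^ (n + 1) * ε = q * (q ^ n * ε) := by ring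
      have e2 : y + ((n + 1 : ℕ) : ℝ) * ℓ j = y + n * ℓ j + ℓ j := by push_cast; ring
      rw [e1, e2]
      exact h1
  have hsum : ∀ n : ℕ, n ≤ N → n * (M / 2) ≤ f (y + n * ℓ j) - f y := by
    intro n
    induction n with
    | zero => intro _; simp
    | succ n ih =>
      intro hn
      have h1 := ih (Nat.le_of_succ_le hn)
      have h2 := hit n
      have h3 : q ^ n * ε ≤ M / 2 := by
        have h4 : q ^ n ≤ q ^ N := pow_le_pow_right₀ hq1 (Nat.le_of_succ_le hn)
        have h5 : q ^ N * ε = M / 2 := by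
          rw [hε]
          field_simp
        calc q ^ n * ε ≤ q ^ N * ε := mul_le_mul_of_nonneg_right h4 hε0.le
          _ = M / 2 := h5
      have e2 : y + ((n + 1 : ℕ) : ℝ) * ℓ j = y + n * ℓ j + ℓ j := by push_cast; ring
      have h6 : h (y + n * ℓ j) = f (y + n * ℓ j + ℓ j) - f (y + n * ℓ j) := rfl
      rw [e2]
      push_cast
      linarith
  have h7 := hsum N le_rfl
  have h8 := (abs_le.1 (hb (y + N * ℓ j))).2
  have h9 := (abs_le.1 (hb y)).1
  linarith

/-- **Liouville property** -/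
theorem liou (hp : ∀ i, 0 < p i) (hb : ∀ x, |f x| ≤ C)
    (hf : ∀ x, ∑ i, p i * (f (x + ℓ i) - f x) = 0) (j : ι) (x : ℝ) : f (x + ℓ j) = f x := by
  refine le_antisymm (liou_le hp hb hf j x) ?_
  have h2 : ∀ x, ∑ i, p i * ((fun x => -f x) (x + ℓ i) - (fun x => -f x) x) = 0 := by
    intro x
    have h3 := hf x
    have h4 : ∑ i, p i * ((fun x => -f x) (x + ℓ i) - (fun x => -f x) x) =
        -∑ i, p i * (f (x + ℓ i) - f x) := by
      rw [← Finset.sum_neg_distrib]
      refine Finset.sum_congr rfl fun i _ => ?_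
      ring
    rw [h4, h3, neg_zero]
  have h1 := liou_le (f := fun x => -f x) (C := C) hp (fun x => by rw [abs_neg]; exact hb x)
    h2 j x
  linarith

end Pool.Agent.W2helper22.PC
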