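import Pool.Agent.Y744.PCR.Core
import Pool.Agent.W2helper22.PC.HighQ
import Pool.Agent.W2helper22.PC.Liou

/-! # The discrepancy of a limit is bounded -/

set_option autoImplicit false

open MeasureTheory Filter Topology Real
open Pool.Agent.Y744

namespace Pool.Agent.W2helper22.PC

/-- what is used about the limits of the counting functions -/
structure Lim (κ : ℝ) (A' : ℝ → ℝ) (C0 : ℝ) : Prop where
  mono : Monotone A'
  neg : ∀ y, y < 0 → A' y = 0
  bd : ∀ y, |A' y| ≤ C0 * (1 + y ^ 2)
  one : 1 ≤ A' 0
  mont : ∀ K, TK κ K → ∀ h, 0 < h →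
    ∫ y, A' y * (ct K (y + h) - ct K (y - h)) = ∫ y, AG y * (ct K (y + h) - ct K (y - h))

lemma gp_odd' (x : ℝ) : gp (-x) = -gp x := by
  have h1 := gp_sub (-x) 0
  have h2 : ∫ u in (-x)..0, gd u = ∫ u in (0 : ℝ)..x, gd u := by
    have := intervalIntegral.integral_comp_neg (a := 0) (b := x) gd
    rw [neg_zero] at this
    rw [← this]
    refine intervalIntegral.integral_congr fun u _ => ?_
    show gd (-u) = gd u
    unfold gd
    rw [mul_neg, Real.sinc_neg]
  rw [h2, gp_zero] at h1
  have h3 : gp x = ∫ u in (0 : ℝ)..x, gd u := rfl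
  linarith

lemma gp_lip {a b : ℝ} (h : a ≤ b) : gp b - gp a ≤ b - a := by
  rw [gp_sub]
  have := intervalIntegral.integral_mono_on (μ := volume) h (gd_cont.intervalIntegrable a b)
    (intervalIntegrable_const (c := (1 : ℝ))) (fun u _ => gd_le u)
  refine this.trans (le_of_eq ?_)
  simp

section

variable {κ : ℝ} {A' : ℝ → ℝ} {C0 : ℝ}

lemma Lim.E_mono (h : Lim κ A' C0) : Monotone fun x => dE A' x + 2 * gp x := by
  have hp : ∀ x, 0 < x → dE A' x + 2 * gp x = A' x - 1 := by
    intro x hx
    rw [dE_pos h.neg hx]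
    unfold AG
    rw [if_neg (by linarith)]
    ring
  have hn : ∀ x, x < 0 → dE A' x + 2 * gp x = 1 - A' (-x) := by
    intro x hx
    have h1 := hp (-x) (by linarith)
    rw [dE_odd, gp_odd'] at h1
    linarith
  have h0 : dE A' 0 + 2 * gp 0 = 0 := by
    have h1 := dE_odd A' 0
    rw [neg_zero] at h1
    rw [gp_zero]
    linarith
  intro x y hxy
  show dE A' x + 2 * gp x ≤ dE A' y + 2 * gp y
  rcases lt_trichotomy x 0 with hx | hx | hx
  · rcases lt_trichotomy y 0 with hy | hy | hy
    · rw [hn x hx, hn y hy]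
      have := h.mono (show -y ≤ -x by linarith)
      linarith
    · rw [hn x hx, hy, h0]
      have := h.mono (show 0 ≤ -x by linarith)
      have := h.one
      linarith
    · rw [hn x hx, hp y hy]
      have := h.mono (show 0 ≤ -x by linarith)
      have := h.mono hy.le
      have := h.one
      linarith
  · rcases eq_or_lt_of_le hxy with hy | hy
    · rw [hy]
    · rw [hx, h0, hp y (by linarith)]
      have := h.mono (show 0 ≤ y by linarith)
      have := h.one
      linarith
  · rw [hp x hx, hp y (by linarith)]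
    have := h.mono hxy
    linarith

lemma Lim.C0_nonneg (h : Lim κ A' C0) : 0 ≤ C0 := by
  have := (abs_nonneg _).trans (h.bd 0)
  simpa using this

lemma Lim.meas (h : Lim κ A' C0) : Measurable (dE A') := dE_meas h.mono

lemma Lim.int_shift (h : Lim κ A' C0) {K : ℝ → ℝ} (hK : TK κ K) (t : ℝ) :
    Integrable fun y => dE A' (y + t) * ct K y := by
  have := (test_int hK h.meas (dE_bound h.bd) (-t)).comp_add_right t
  refine this.congr (Eventually.of_forall fun y => ?_)
  show dE A' (y + t) * ct K (y + t + -t) = dE A' (y + t) * ct K y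
  rw [add_neg_cancel_right]

/-- the discrepancy annihilates the band-limited functions -/
lemma Lim.conv_zero (h : Lim κ A' C0) {K : ℝ → ℝ} (hK : TK κ K) (t : ℝ) :
    ∫ y, dE A' (y + t) * ct K y = 0 := by
  have hneg : ∀ t, ∫ y, dE A' (y + -t) * ct K y = -∫ y, dE A' (y + t) * ct K y := by
    intro t
    have h1 : ∫ y, dE A' (y + -t) * ct K y = ∫ y, dE A' (-y + -t) * ct K (-y) :=
      (integral_neg_eq_self (fun y => dE A' (y + -t) * ct K y) volume).symm
    rw [h1, ← integral_neg]
    refine integral_congr_ae (Eventually.of_forall fun y => ?_)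
    show dE A' (-y + -t) * ct K (-y) = -(dE A' (y + t) * ct K y)
    rw [TK.ct_neg, ← neg_add, dE_odd]
    ring
  have hpos : ∀ t, 0 < t → ∫ y, dE A' (y + t) * ct K y = 0 := by
    intro t ht
    have h1 := annih hK h.mono h.bd t (h.mont K hK t ht)
    have h2 : ∫ y, (dE A' (y + t) - dE A' (y - t)) * ct K y =
        (∫ y, dE A' (y + t) * ct K y) - ∫ y, dE A' (y + -t) * ct K y := by
      rw [← integral_sub (h.int_shift hK t) (h.int_shift hK (-t))]
      refine integral_congr_ae (Eventually.of_forall fun y => ?_)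
      show (dE A' (y + t) - dE A' (y - t)) * ct K y =
        dE A' (y + t) * ct K y - dE A' (y + -t) * ct K y
      rw [← sub_eq_add_neg]
      ring
    rw [h2, hneg] at h1
    linarith
  rcases lt_trichotomy t 0 with ht | rfl | ht
  · have h1 := hpos (-t) (by linarith)
    rw [hneg] at h1
    linarith
  · have h1 := hneg 0
    rw [neg_zero] at h1
    linarith
  · exact hpos t ht

/-- **the discrepancy is bounded** -/
lemma Lim.bounded (hκ : 0 < κ) (h : Lim κ A' C0) : ∃ C : ℝ, 0 ≤ C ∧ ∀ x, |dE A' x| ≤ C := by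
  obtain ⟨K, hK, hpos, h0, hle⟩ := exists_pos hκ
  set φ : ℝ → ℝ := ct K with hφ
  have hφc : Continuous φ := hK.ct_cont
  obtain ⟨D, hD0, hD⟩ := hK.decay 2
  have hφi : Integrable φ := by
    refine (integrable_inv_one_add_sq.const_mul D).mono' hφc.aestronglyMeasurable
      (Eventually.of_forall fun x => ?_)
    rw [Real.norm_eq_abs]
    refine (hD x).trans ?_
    rw [← div_eq_mul_inv]
    have : (1 : ℝ) + x ^ 2 ≤ (1 + x ^ 2) ^ 2 := by nlinarith [sq_nonneg x]
    exact div_le_div_of_nonneg_left hD0 (by positivity) this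
  have hφi1 : Integrable fun x => (1 + |x|) * φ x := by
    refine (integrable_inv_one_add_sq.const_mul (2 * D)).mono'
      ((by fun_prop : Continuous fun x : ℝ => 1 + |x|).mul hφc).aestronglyMeasurable
      (Eventually.of_forall fun x => ?_)
    rw [Real.norm_eq_abs, abs_mul, abs_of_nonneg (by positivity : (0 : ℝ) ≤ 1 + |x|)]
    have h1 : 1 + |x| ≤ 2 * (1 + x ^ 2) := by
      nlinarith [sq_abs x, sq_nonneg (|x| - 1), abs_nonneg x]
    have h2 := hD x
    calc (1 + |x|) * |ct K x| ≤ (2 * (1 + x ^ 2)) * (D / (1 + x ^ 2) ^ 2) :=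
          mul_le_mul h1 h2 (abs_nonneg _) (by positivity)
      _ = 2 * D * (1 + x ^ 2)⁻¹ := by field_simp
  set I0 := ∫ x, φ x with hI0
  set I1 := ∫ x, (1 + |x|) * φ x with hI1
  have hI1n : 0 ≤ I1 := integral_nonneg fun x => mul_nonneg (by positivity) (hpos x)
  set c1 := ∫ x in (-1 : ℝ)..1, φ x with hc1
  have hc1p : 0 < c1 := intervalIntegral.integral_pos (by norm_num) hφc.continuousOn
    (fun x _ => hpos x) ⟨0, ⟨by norm_num, by norm_num⟩, h0⟩
  have hc1I : c1 ≤ I0 := by
    rw [hc1, intervalIntegral.integral_of_le (by norm_num)]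
    exact setIntegral_le_integral hφi (Eventually.of_forall fun x => hpos x)
  have hI0p : 0 < I0 := hc1p.trans_le hc1I
  have hE := h.E_mono
  -- local bound
  set C1 := 8 * I0 / c1 with hC1
  have hC10 : 0 ≤ C1 := by positivity
  have hloc : ∀ x, (dE A' (x + 2) + 2 * gp (x + 2)) - (dE A' x + 2 * gp x) ≤ C1 := by
    intro x
    set G : ℝ → ℝ := fun u => (dE A' (u + (x + 3)) + 2 * gp (u + (x + 3))) -
      (dE A' (u + (x - 1)) + 2 * gp (u + (x - 1))) with hG
    have hgi : Integrable fun u => (gp (u + (x + 3)) - gp (u + (x - 1))) * φ u := by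
      refine (hφi.const_mul 4).mono'
        (((gp_cont.comp (by fun_prop)).sub (gp_cont.comp (by fun_prop))).mul
          hφc).aestronglyMeasurable (Eventually.of_forall fun u => ?_)
      rw [Real.norm_eq_abs, abs_mul, abs_of_nonneg (hpos u)]
      refine mul_le_mul_of_nonneg_right ?_ (hpos u)
      have h1 := gp_lip (show u + (x - 1) ≤ u + (x + 3) by linarith)
      have h2 := gp_mono (show u + (x - 1) ≤ u + (x + 3) by linarith)
      show |gp (u + (x + 3)) - gp (u + (x - 1))| ≤ 4
      rw [abs_of_nonneg (by linarith)]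
      linarith
    have hGi : Integrable fun u => G u * φ u := by
      refine (((h.int_shift hK (x + 3)).sub (h.int_shift hK (x - 1))).add
        (hgi.const_mul 2)).congr (Eventually.of_forall fun u => ?_)
      show dE A' (u + (x + 3)) * φ u - dE A' (u + (x - 1)) * φ u +
        2 * ((gp (u + (x + 3)) - gp (u + (x - 1))) * φ u) = G u * φ u
      simp only [hG]
      ring
    have e1 : ∫ u, G u * φ u = 2 * ∫ u, (gp (u + (x + 3)) - gp (u + (x - 1))) * φ u := by
      have e2 : ∫ u, G u * φ u = (∫ u, dE A' (u + (x + 3)) * φ u) -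
          (∫ u, dE A' (u + (x - 1)) * φ u) +
          2 * ∫ u, (gp (u + (x + 3)) - gp (u + (x - 1))) * φ u := by
        have hs : Integrable fun u => dE A' (u + (x + 3)) * φ u - dE A' (u + (x - 1)) * φ u :=
          (h.int_shift hK _).sub (h.int_shift hK _)
        have e5 : (∫ u, dE A' (u + (x + 3)) * φ u) - (∫ u, dE A' (u + (x - 1)) * φ u) =
            ∫ u, (dE A' (u + (x + 3)) * φ u - dE A' (u + (x - 1)) * φ u) :=
          (integral_sub (h.int_shift hK _) (h.int_shift hK _)).symm
        rw [e5, ← integral_const_mul, ← integral_add hs (hgi.const_mul 2)]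
        refine integral_congr_ae (Eventually.of_forall fun u => ?_)
        show G u * φ u = dE A' (u + (x + 3)) * φ u - dE A' (u + (x - 1)) * φ u +
          2 * ((gp (u + (x + 3)) - gp (u + (x - 1))) * φ u)
        simp only [hG]
        ring
      rw [e2, h.conv_zero hK, h.conv_zero hK]
      ring
    have e3 : ∫ u, (gp (u + (x + 3)) - gp (u + (x - 1))) * φ u ≤ 4 * I0 := by
      rw [hI0, ← integral_const_mul]
      refine integral_mono hgi (hφi.const_mul 4) fun u => ?_
      show (gp (u + (x + 3)) - gp (u + (x - 1))) * φ u ≤ 4 * φ u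
      refine mul_le_mul_of_nonneg_right ?_ (hpos u)
      have h1 := gp_lip (show u + (x - 1) ≤ u + (x + 3) by linarith)
      linarith
    have hGn : ∀ u, 0 ≤ G u := fun u => by
      have := hE (show u + (x - 1) ≤ u + (x + 3) by linarith)
      simp only at this
      simp only [hG]
      linarith
    have e4 : ((dE A' (x + 2) + 2 * gp (x + 2)) - (dE A' x + 2 * gp x)) * c1 ≤
        ∫ u, G u * φ u := by
      calc ((dE A' (x + 2) + 2 * gp (x + 2)) - (dE A' x + 2 * gp x)) * c1 =
            ∫ u in (-1 : ℝ)..1, ((dE A' (x + 2) + 2 * gp (x + 2)) - (dE A' x + 2 * gp x)) * φ u := by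
            rw [hc1, intervalIntegral.integral_const_mul]
        _ ≤ ∫ u in (-1 : ℝ)..1, G u * φ u := by
            refine intervalIntegral.integral_mono_on (by norm_num)
              ((continuous_const.mul hφc).intervalIntegrable _ _) hGi.intervalIntegrable
              fun u hu => ?_
            refine mul_le_mul_of_nonneg_right ?_ (hpos u)
            have h1 := hE (show x + 2 ≤ u + (x + 3) by linarith [hu.1])
            have h2 := hE (show u + (x - 1) ≤ x by linarith [hu.2])
            simp only at h1 h2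
            simp only [hG]
            linarith
        _ ≤ ∫ u, G u * φ u := by
            rw [intervalIntegral.integral_of_le (by norm_num)]
            exact setIntegral_le_integral hGi
              (Eventually.of_forall fun u => mul_nonneg (hGn u) (hpos u))
    rw [hC1, le_div_iff₀ hc1p]
    linarith
  have hlong : ∀ (n : ℕ) (x : ℝ),
      (dE A' (x + 2 * n) + 2 * gp (x + 2 * n)) - (dE A' x + 2 * gp x) ≤ n * C1 := by
    intro n x
    induction n with
    | zero => simp
    | succ n ih =>
      have h1 := hloc (x + 2 * n)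
      have e : x + 2 * ((n + 1 : ℕ) : ℝ) = x + 2 * n + 2 := by push_cast; ring
      rw [e]
      push_cast
      linarith
  have hinc : ∀ x t : ℝ, 0 ≤ t →
      (dE A' (x + t) + 2 * gp (x + t)) - (dE A' x + 2 * gp x) ≤ C1 * (1 + t) := by
    intro x t ht
    have h1 := hlong ⌈t / 2⌉₊ x
    have h2 : t / 2 ≤ ⌈t / 2⌉₊ := Nat.le_ceil _
    have h3 : (⌈t / 2⌉₊ : ℝ) < t / 2 + 1 := Nat.ceil_lt_add_one (by positivity)
    have h4 := hE (show x + t ≤ x + 2 * ⌈t / 2⌉₊ by linarith)
    simp only at h4
    have h5 : (⌈t / 2⌉₊ : ℝ) * C1 ≤ (1 + t) * C1 :=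
      mul_le_mul_of_nonneg_right (by linarith) hC10
    linarith
  have hdiff : ∀ x u : ℝ, |dE A' x - dE A' (u + x)| ≤ (C1 + 2) * (1 + |u|) := by
    have key : ∀ x t : ℝ, 0 ≤ t → |dE A' (x + t) - dE A' x| ≤ (C1 + 2) * (1 + t) := by
      intro x t ht
      have h1 := hinc x t ht
      have h2 := hE (show x ≤ x + t by linarith)
      simp only at h2
      have h3 := gp_lip (show x ≤ x + t by linarith)
      have h4 := gp_mono (show x ≤ x + t by linarith)
      rw [abs_le]
      constructor
      · nlinarith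
      · nlinarith
    intro x u
    rcases le_total 0 u with hu | hu
    · have h1 := key x u hu
      rw [abs_sub_comm, add_comm u x, abs_of_nonneg hu]
      exact h1
    · have h1 := key (x + u) (-u) (by linarith)
      rw [add_neg_cancel_right] at h1
      rw [add_comm u x, abs_of_nonpos hu]
      exact h1
  refine ⟨(C1 + 2) * I1 / I0, div_nonneg (mul_nonneg (by linarith) hI1n) hI0p.le, fun x => ?_⟩
  have hi1 : Integrable fun u => (dE A' x - dE A' (u + x)) * φ u := by
    refine ((hφi.const_mul (dE A' x)).sub (h.int_shift hK x)).congr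
      (Eventually.of_forall fun u => ?_)
    show dE A' x * φ u - dE A' (u + x) * φ u = _
    ring
  have e1 : ∫ u, (dE A' x - dE A' (u + x)) * φ u = dE A' x * I0 := by
    have e2 : ∫ u, (dE A' x - dE A' (u + x)) * φ u =
        dE A' x * I0 - ∫ u, dE A' (u + x) * φ u := by
      rw [hI0, ← integral_const_mul, ← integral_sub (hφi.const_mul _) (h.int_shift hK x)]
      refine integral_congr_ae (Eventually.of_forall fun u => ?_)
      show (dE A' x - dE A' (u + x)) * φ u = dE A' x * φ u - dE A' (u + x) * φ u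
      ring
    rw [e2, h.conv_zero hK, sub_zero]
  have hi2 : Integrable fun u => |(dE A' x - dE A' (u + x)) * φ u| := hi1.abs
  have hi3 : Integrable fun u => (C1 + 2) * ((1 + |u|) * φ u) := hφi1.const_mul _
  rw [le_div_iff₀ hI0p]
  calc |dE A' x| * I0 = |∫ u, (dE A' x - dE A' (u + x)) * φ u| := by
        rw [e1, abs_mul, abs_of_pos hI0p]
    _ ≤ ∫ u, |(dE A' x - dE A' (u + x)) * φ u| := abs_integral_le_integral_abs
    _ ≤ ∫ u, (C1 + 2) * ((1 + |u|) * φ u) := by
        refine integral_mono hi2 hi3 fun u => ?_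
        show |(dE A' x - dE A' (u + x)) * φ u| ≤ (C1 + 2) * ((1 + |u|) * φ u)
        have e6 : |(dE A' x - dE A' (u + x)) * φ u| = |dE A' x - dE A' (u + x)| * φ u := by
          rw [abs_mul, abs_of_nonneg (hpos u)]
        rw [e6]
        calc |dE A' x - dE A' (u + x)| * φ u ≤ ((C1 + 2) * (1 + |u|)) * φ u :=
              mul_le_mul_of_nonneg_right (hdiff x u) (hpos u)
          _ = _ := by ring
    _ = (C1 + 2) * I1 := by rw [integral_const_mul]

end

end Pool.Agent.W2helper22.PC
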