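import Pool.Agent.W2helper22.PC.Single2

/-! # The criterion for the windows of the problem -/

set_option autoImplicit false

open MeasureTheory Filter Topology Real
open Pool.Agent.Y744

namespace Pool.Agent.W2helper22.PC

/-- far windows and the prediction -/
lemma D_far {T a ℓ : ℝ} (hT : 1 < T) (ha : 0 < a) :
    G.D T a (a + ℓ) = Nr T a (a + ℓ) - (gp (a + ℓ) - gp a) := by
  rw [G.D_eq hT]
  unfold pr
  rw [Set.indicator_of_notMem (by
    rintro ⟨h2, h3⟩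
    linarith)]
  ring

/-- **every length of a system of one-sided bounds is a period of the limit** -/
theorem sys_per {F : Filter ℝ} (hF : F ≤ atTop) {n : ℕ} {c ℓ : Fin n → ℝ} {s B A : ℝ}
    {β : ℕ → ℝ} {Q : Set ℝ} (hc : ∀ i, 0 < c i) (hℓ : ∀ i, 0 < ℓ i) (hs : s = 1 ∨ s = -1)
    (hβ : QSeq β) (hQ : Set.Ici A ⊆ closure Q)
    (hyp : ∀ a ∈ Q, ∀ k : ℕ, ∀ δ, 0 < δ → ∀ᶠ T in F,
      s * ∑ i, c i * G.D T a (a + ℓ i) ≤ B * ∏ m ∈ Finset.range k, (β m / a) ^ 2 + δ)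
    (g : Ultrafilter ℝ) (hg : (g : Filter ℝ) ≤ F) {A' : ℝ → ℝ} {C0 : ℝ}
    (hL : Lim (1 / 2) A' C0) (hlim : ∀ y, Tendsto (fun T => Aa T y) (g : Filter ℝ) (𝓝 (A' y)))
    (i : Fin n) : ℓ i ∈ perG A' := by
  set a0 := max A 1 with ha0
  have ha1 : 1 ≤ a0 := le_max_right _ _
  have hQ' : Set.Ici a0 ⊆ closure (Q ∩ Set.Ioi 0) := by
    intro a ha
    have h1 : a ∈ closure Q := hQ (Set.mem_Ici.2 ((le_max_left _ _).trans ha))
    have h2 : a ∈ Set.Ioi (0 : ℝ) := by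
      have : a0 ≤ a := ha
      show 0 < a
      linarith
    exact isOpen_Ioi.closure_inter ⟨h1, h2⟩
  have hB : 0 ≤ |B| := abs_nonneg B
  have h1 := hyp_limit (A' := A') (c := c) (ℓ := ℓ) (s := s) (a0 := a0)
    (w := fun k a => |B| * ∏ m ∈ Finset.range k, (β m / a) ^ 2)
    (hg.trans hF) hL.mono hlim hc hℓ hs (by linarith) hQ' (fun k a ha => w_cont |B| β k ha)
    (fun a ha k ε hε => by
      have ha0 : 0 < a := ha.2
      filter_upwards [hg (hyp a ha.1 k ε hε), (hg.trans hF) (eventually_gt_atTop (1 : ℝ))]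
        with T hT hT1
      have e : ∑ j, c j * (Nr T a (a + ℓ j) - (gp (a + ℓ j) - gp a)) =
          ∑ j, c j * G.D T a (a + ℓ j) :=
        Finset.sum_congr rfl fun j _ => by rw [D_far hT1 ha0]
      rw [e]
      have h2 : 0 ≤ ∏ m ∈ Finset.range k, (β m / a) ^ 2 :=
        Finset.prod_nonneg fun m _ => sq_nonneg _
      have h3 := mul_le_mul_of_nonneg_right (le_abs_self B) h2
      linarith)
  have h2 : HypL A' c ℓ (-s) a0 (2 * |B|) β := by
    filter_upwards [h1] with a ha haa k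
    have := ha haa k
    rw [mul_assoc]
    exact this
  exact hL.per (by norm_num) hc hℓ (s := -s) (by
    rcases hs with rfl | rfl
    · right; rfl
    · left; norm_num) hβ (B := 2 * |B|) (by positivity) (by linarith) h2 i

/-- **the discrepancy of all windows** -/
theorem bound_of_per (RH : RiemannHypothesis) {F : Filter ℝ} (hF : F ≤ atTop) {l : ℝ} (hl : 0 < l)
    (h : ∀ g : Ultrafilter ℝ, (g : Filter ℝ) ≤ F → ∀ (A' : ℝ → ℝ) (C0 : ℝ), Lim (1 / 2) A' C0 →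
      (∀ y, Tendsto (fun T => Aa T y) (g : Filter ℝ) (𝓝 (A' y))) → l ∈ perG A')
    {α β' : ℝ} (hαβ : α < β') {ε : ℝ} (hε : 0 < ε) :
    ∀ᶠ T in F, |G.D T α β'| ≤ 2 * gp (l / 2) + ε := by
  have key : ∀ x, ∀ ε, 0 < ε → ∀ᶠ T in F, |Aa T x - AG x| ≤ 2 * gp (l / 2) + ε := by
    intro x ε hε
    have h0 : {T | |Aa T x - AG x| ≤ 2 * gp (l / 2) + ε} ∈ F := by
      rw [Filter.mem_iff_ultrafilter]
      intro g hg
      obtain ⟨A', C0, hL, hlim⟩ := exists_Lim RH g (hg.trans hF)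
      have hp := mem_perG.1 (h g hg A' C0 hL hlim)
      have h1 := single_all' hL.mono hL.neg hL.one hl hp x
      have h2 : Tendsto (fun T => |Aa T x - AG x|) (g : Filter ℝ) (𝓝 |A' x - AG x|) :=
        ((hlim x).sub_const _).abs
      have h3 : ∀ᶠ T in (g : Filter ℝ), |Aa T x - AG x| < 2 * gp (l / 2) + ε :=
        (tendsto_order.1 h2).2 _ (by linarith)
      exact h3.mono fun T hT => le_of_lt hT
    exact h0
  filter_upwards [Nr_close hF key hαβ hε, hF (eventually_gt_atTop (1 : ℝ))] with T h1 h2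
  rw [G.D_eq h2]
  exact h1

/-- the integral in the statement -/
lemma int_eq (l : ℝ) (hl : 0 < l) : ∫ u in (-(l / 2))..(l / 2),
    (1 - (Real.sin (Real.pi * u) / (Real.pi * u)) ^ 2) = 2 * gp (l / 2) := by
  have h := G.P_eq (-(l / 2)) (l / 2)
  unfold G.P pr at h
  rw [if_pos ⟨by linarith, by linarith⟩, Set.indicator_of_mem
    (show (0 : ℝ) ∈ Set.Icc (-(l / 2)) (l / 2) from ⟨by linarith, by linarith⟩), gp_odd] at h
  linarith

/-- small discrepancies -/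
theorem small_of_dense {F : Filter ℝ} {Λ : AddSubgroup ℝ} (hΛ : Dense (Λ : Set ℝ))
    (h : ∀ l ∈ Λ, 0 < l → ∀ α β : ℝ, α < β → ∀ ε, 0 < ε →
      ∀ᶠ T in F, |G.D T α β| ≤ 2 * gp (l / 2) + ε) {α β : ℝ} (hαβ : α < β) {ε : ℝ} (hε : 0 < ε) :
    ∀ᶠ T in F, |G.D T α β| ≤ ε := by
  obtain ⟨l, hl, hl1, hl2⟩ := hΛ.exists_between (show 0 < ε / 2 by positivity)
  filter_upwards [h l hl hl1 α β hαβ (ε / 2) (by positivity)] with T hT
  have := gp_le (show 0 ≤ l / 2 by positivity)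
  linarith

theorem mont_of_small {F : Filter ℝ} (hF : F ≤ atTop)
    (h : ∀ α β : ℝ, α < β → ∀ ε, 0 < ε → ∀ᶠ T in F, |G.D T α β| ≤ ε) : G.Montgomery F := by
  rw [G.Mont_iff hF]
  intro α β hαβ
  rw [Metric.tendsto_nhds]
  intro ε hε
  filter_upwards [h α β hαβ (ε / 2) (by positivity), hF (eventually_gt_atTop (1 : ℝ))] with T h1 h2
  rw [G.D_eq h2] at h1
  rw [Real.dist_eq]
  linarith

theorem small_of_mont {F : Filter ℝ} (hF : F ≤ atTop) (h : G.Montgomery F) {α β : ℝ}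
    (hαβ : α < β) {ε : ℝ} (hε : 0 < ε) : ∀ᶠ T in F, |G.D T α β| ≤ ε := by
  rw [G.Mont_iff hF] at h
  filter_upwards [(Metric.tendsto_nhds.1 (h α β hαβ)) ε hε, hF (eventually_gt_atTop (1 : ℝ))]
    with T h1 h2
  rw [G.D_eq h2]
  rw [Real.dist_eq] at h1
  exact h1.le

/-- a sequence whose range is dense in a half line -/
lemma exists_seq (A : ℝ) : ∃ q : ℕ → ℝ, (∀ n, A ≤ q n) ∧ Set.Ici A ⊆ closure (Set.range q) := by
  set r := TopologicalSpace.denseSeq ℝ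
  refine ⟨fun n => max A (r n), fun n => le_max_left _ _, ?_⟩
  have hr : DenseRange r := TopologicalSpace.denseRange_denseSeq ℝ
  have hc : Continuous fun x : ℝ => max A x := by fun_prop
  intro a ha
  have h1 : a ∈ (fun x : ℝ => max A x) '' closure (Set.range r) :=
    ⟨a, by rw [hr.closure_range]; trivial, max_eq_right ha⟩
  have h2 := image_closure_subset_closure_image hc h1
  rwa [← Set.range_comp] at h2

/-- **finitely many windows** -/
theorem finite_windows (RH : RiemannHypothesis) {n : ℕ} {c ℓ : Fin n → ℝ} {s B : ℝ} (A : ℝ)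
    {β : ℕ → ℝ} (hc : ∀ i, 0 < c i) (hℓ : ∀ i, 0 < ℓ i) (hs : s = 1 ∨ s = -1)
    (hβ : QSeq β) {l : ℝ} (hl : 0 < l) (hlΛ : l ∈ AddSubgroup.closure (Set.range ℓ))
    {α β' : ℝ} (hαβ : α < β') {ε : ℝ} (hε : 0 < ε) :
    ∃ (𝒜 : Finset ℝ) (K : ℕ) (δ T₀ : ℝ), (∀ a ∈ 𝒜, A ≤ a) ∧ 0 < δ ∧ ∀ T, T₀ ≤ T →
      (∀ a ∈ 𝒜, ∀ k ≤ K, s * ∑ i, c i * G.D T a (a + ℓ i) ≤
        B * ∏ m ∈ Finset.range k, (β m / a) ^ 2 + δ) → |G.D T α β'| ≤ 2 * gp (l / 2) + ε := by
  classical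
  obtain ⟨q, hqA, hq⟩ := exists_seq A
  by_contra hcon
  push Not at hcon
  have hex : ∀ N : ℕ, ∃ T : ℝ, (N : ℝ) ≤ T ∧ (∀ j ≤ N, ∀ k ≤ N,
      s * ∑ i, c i * G.D T (q j) (q j + ℓ i) ≤
        B * ∏ m ∈ Finset.range k, (β m / q j) ^ 2 + 1 / ((N : ℝ) + 1)) ∧
      2 * gp (l / 2) + ε < |G.D T α β'| := by
    intro N
    obtain ⟨T, hT1, hT2, hT3⟩ := hcon ((Finset.range (N + 1)).image q) N (1 / ((N : ℝ) + 1)) N
      (fun a ha => by
        obtain ⟨j, _, rfl⟩ := Finset.mem_image.1 ha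
        exact hqA j) (by positivity)
    refine ⟨T, hT1, fun j hj k hk => ?_, hT3⟩
    exact hT2 (q j) (Finset.mem_image.2 ⟨j, Finset.mem_range.2 (by omega), rfl⟩) k hk
  choose t ht1 ht2 ht3 using hex
  have htt : Tendsto t atTop atTop := tendsto_atTop_mono ht1 tendsto_natCast_atTop_atTop
  have hF : map t atTop ≤ (atTop : Filter ℝ) := htt
  have hyp : ∀ a ∈ Set.range q, ∀ k : ℕ, ∀ δ, 0 < δ → ∀ᶠ T in map t atTop,
      s * ∑ i, c i * G.D T a (a + ℓ i) ≤ B * ∏ m ∈ Finset.range k, (β m / a) ^ 2 + δ := by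
    rintro _ ⟨j, rfl⟩ k δ hδ
    rw [eventually_map]
    have h1 : ∀ᶠ N : ℕ in atTop, 1 / ((N : ℝ) + 1) < δ :=
      (tendsto_order.1 tendsto_one_div_add_atTop_nhds_zero_nat).2 δ hδ
    filter_upwards [h1, eventually_ge_atTop j, eventually_ge_atTop k] with N hN hj hk
    have := ht2 N j hj k hk
    linarith
  have h1 : ∀ᶠ T in map t atTop, |G.D T α β'| ≤ 2 * gp (l / 2) + ε := by
    refine bound_of_per RH hF hl (fun g hg A' C0 hL hlim => ?_) hαβ hε
    have h2 : AddSubgroup.closure (Set.range ℓ) ≤ perG A' := by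
      rw [AddSubgroup.closure_le]
      rintro _ ⟨i, rfl⟩
      exact sys_per hF hc hℓ hs hβ hq hyp g hg hL hlim i
    exact h2 hlΛ
  rw [eventually_map] at h1
  obtain ⟨N, hN⟩ := h1.exists
  have := ht3 N
  linarith

end Pool.Agent.W2helper22.PC
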