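import Pool.Agent.W2helper22.PC.PerQ

/-! # One-sided bounds for far windows with quasi-analytically small error -/

set_option autoImplicit false

open MeasureTheory Filter Topology Real
open Pool.Agent.Y744

namespace Pool.Agent.W2helper22.PC

/-- shifted and dilated sequences -/
lemma QSeq.shift {β : ℕ → ℝ} (hβ : QSeq β) {R : ℝ} (hR : 0 ≤ R) : QSeq fun i => 2 * β (i + 1) + R where
  mono := fun i j hij => by
    have := hβ.mono (Nat.succ_le_succ hij)
    show 2 * β (i + 1) + R ≤ 2 * β (j + 1) + R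
    have h2 : β (i + 1) ≤ β (j + 1) := this
    linarith
  pos := by
    have := hβ.pos' (0 + 1)
    positivity
  div := by
    intro hs
    apply hβ.div
    rw [← summable_nat_add_iff 1]
    have h0 := hβ.pos
    refine (hs.mul_left (2 + R / β 0)).of_nonneg_of_le
      (fun i => inv_nonneg.2 (hβ.pos' (i + 1)).le) fun i => ?_
    have h1 := hβ.pos' (i + 1)
    have h2 : β 0 ≤ β (i + 1) := hβ.mono (Nat.zero_le _)
    rw [← div_eq_mul_inv, inv_eq_one_div, div_le_div_iff₀ h1 (by positivity), one_mul]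
    have h3 : R ≤ R / β 0 * β (i + 1) := by
      rw [div_mul_eq_mul_div, le_div_iff₀ h0]
      exact mul_le_mul_of_nonneg_left h2 hR
    linarith

section

variable {κ : ℝ} {A' : ℝ → ℝ} {C0 : ℝ} {ι : Type*} [Fintype ι] {c ℓ : ι → ℝ}

/-- the one-sided condition for a limit -/
def HypL (A' : ℝ → ℝ) (c ℓ : ι → ℝ) (s a0 B : ℝ) (β : ℕ → ℝ) : Prop :=
  ∀ᵐ a, a0 ≤ a → ∀ k : ℕ, -(B * ∏ m ∈ Finset.range k, (β m / a) ^ 2) ≤
    s * ∑ j, c j * (A' (a + ℓ j) - A' a - 2 * (gp (a + ℓ j) - gp a))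

lemma Lim.JJ_cont (hκ : 0 < κ) (h : Lim κ A' C0) (s : ℝ) : Continuous (JJ A' c ℓ s) := by
  have hc := h.prim_cont hκ
  unfold JJ
  refine continuous_const.mul (continuous_finsetSum _ fun j _ => continuous_finsetSum _ fun i _ =>
    continuous_const.mul ?_)
  exact ((hc.comp (by fun_prop)).sub (hc.comp (by fun_prop))).add
    ((hc.comp (by fun_prop)).sub (hc.comp (by fun_prop)))

lemma Lim.JJ_int (hκ : 0 < κ) (h : Lim κ A' C0) (s x : ℝ) :
    JJ A' c ℓ s x = ∑ i, c i * ∫ t in (x - ℓ i)..x, s * ∑ j, c j * (dE A' (t + ℓ j) - dE A' t) := by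
  unfold JJ
  rw [Finset.sum_comm, Finset.mul_sum]
  refine Finset.sum_congr rfl fun i _ => ?_
  have hi : ∀ j : ι, IntervalIntegrable (fun t => dE A' (t + ℓ j)) volume (x - ℓ i) x := by
    intro j
    have := (h.loc hκ (x - ℓ i + ℓ j) (x + ℓ j)).comp_add_right (ℓ j)
    simpa using this
  rw [intervalIntegral.integral_const_mul, intervalIntegral.integral_finsetSum fun j _ =>
    ((hi j).sub (h.loc hκ _ _)).const_mul _, Finset.mul_sum, Finset.mul_sum, Finset.mul_sum]
  refine Finset.sum_congr rfl fun j _ => ?_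
  rw [intervalIntegral.integral_const_mul, intervalIntegral.integral_sub (hi j) (h.loc hκ _ _),
    intervalIntegral.integral_comp_add_right, ← h.prim_sub hκ, ← h.prim_sub hκ]
  rw [show x - ℓ i + ℓ j = x + (ℓ j - ℓ i) by ring, ← sub_eq_add_neg x, add_zero]
  ring

lemma Lim.JJ_bound (hκ : 0 < κ) (h : Lim κ A' C0) (hc : ∀ i, 0 < c i) (hℓ : ∀ i, 0 < ℓ i) {s : ℝ}
    (hs : s = 1 ∨ s = -1) : ∃ J : ℝ, 0 ≤ J ∧ ∀ x, |JJ A' c ℓ s x| ≤ J := by
  obtain ⟨C, hC, hb⟩ := h.bounded hκ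
  have hs1 : |s| = 1 := by rcases hs with rfl | rfl <;> simp
  set F := ∑ i, c i * (C * ℓ i) with hF
  have hF0 : 0 ≤ F := Finset.sum_nonneg fun i _ => by
    have := hc i
    have := hℓ i
    positivity
  refine ⟨∑ j, c j * (2 * F), Finset.sum_nonneg fun i _ => by
    have := hc i
    positivity, fun x => ?_⟩
  rw [JJ_eq, abs_mul, hs1, one_mul]
  refine (Finset.abs_sum_le_sum_abs _ _).trans (Finset.sum_le_sum fun j _ => ?_)
  rw [abs_mul, abs_of_pos (hc j)]
  refine mul_le_mul_of_nonneg_left ?_ (hc j).le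
  have h1 := h.ff_bound hκ hb hc hℓ (x + ℓ j)
  have h2 := h.ff_bound hκ hb hc hℓ x
  have h3 := abs_sub (ff A' c ℓ (x + ℓ j)) (ff A' c ℓ x)
  linarith

/-- the lower bound far away -/
lemma Lim.JJ_low (hκ : 0 < κ) (h : Lim κ A' C0) (hc : ∀ i, 0 < c i) (hℓ : ∀ i, 0 < ℓ i) {s : ℝ}
    {β : ℕ → ℝ} (hβ : QSeq β) {B a0 : ℝ} (hB : 0 ≤ B) (ha0 : 0 < a0)
    (hyp : HypL A' c ℓ s a0 B β) {x : ℝ} (hx : a0 + 2 * ∑ i, ℓ i + 1 ≤ x) (k : ℕ) :
    -((∑ i, c i * ℓ i) * B * ∏ m ∈ Finset.range k, (2 * β m / x) ^ 2) ≤ JJ A' c ℓ s x := by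
  set L := ∑ i, ℓ i with hL
  have hL0 : 0 ≤ L := Finset.sum_nonneg fun i _ => (hℓ i).le
  have hLi : ∀ i, ℓ i ≤ L := fun i =>
    Finset.single_le_sum (f := ℓ) (fun i _ => (hℓ i).le) (Finset.mem_univ i)
  set W := B * ∏ m ∈ Finset.range k, (2 * β m / x) ^ 2 with hW
  have hx0 : 0 < x := by linarith
  rw [h.JJ_int hκ, mul_assoc, ← hW, Finset.sum_mul, ← Finset.sum_neg_distrib]
  refine Finset.sum_le_sum fun i _ => ?_
  have hG : ∀ᵐ t : ℝ, t ∈ Set.Icc (x - ℓ i) x →
      -W ≤ s * ∑ j, c j * (dE A' (t + ℓ j) - dE A' t) := by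
    filter_upwards [hyp] with t ht htm
    have h1 : x - L ≤ t := by linarith [htm.1, hLi i]
    have h2 : x / 2 ≤ t := by linarith
    have h3 : a0 ≤ t := by linarith
    have ht0 : 0 < t := by linarith
    have h4 := ht h3 k
    have e1 : ∀ j, dE A' (t + ℓ j) - dE A' t = A' (t + ℓ j) - A' t -
        2 * (gp (t + ℓ j) - gp t) := by
      intro j
      have := hℓ j
      rw [dE_pos h.neg ht0, dE_pos h.neg (by linarith : 0 < t + ℓ j)]
      unfold AG
      rw [if_neg (by linarith), if_neg (by linarith)]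
      ring
    have e2 : ∑ j, c j * (dE A' (t + ℓ j) - dE A' t) =
        ∑ j, c j * (A' (t + ℓ j) - A' t - 2 * (gp (t + ℓ j) - gp t)) :=
      Finset.sum_congr rfl fun j _ => by rw [e1]
    rw [e2]
    refine le_trans ?_ h4
    rw [neg_le_neg_iff, hW]
    refine mul_le_mul_of_nonneg_left (Finset.prod_le_prod (fun m _ => by positivity)
      fun m _ => ?_) hB
    have hbm := hβ.pos' m
    refine pow_le_pow_left₀ (by positivity) ?_ 2
    rw [div_le_div_iff₀ ht0 hx0]
    nlinarith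
  have hi : IntervalIntegrable (fun t => s * ∑ j, c j * (dE A' (t + ℓ j) - dE A' t)) volume
      (x - ℓ i) x := by
    have h1 : ∀ j : ι, IntervalIntegrable (fun t => c j * (dE A' (t + ℓ j) - dE A' t)) volume
        (x - ℓ i) x := by
      intro j
      have := (h.loc hκ (x - ℓ i + ℓ j) (x + ℓ j)).comp_add_right (ℓ j)
      have h2 : IntervalIntegrable (fun t => dE A' (t + ℓ j)) volume (x - ℓ i) x := by
        simpa using this
      exact (h2.sub (h.loc hκ _ _)).const_mul _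
    have h3 := IntervalIntegrable.sum (Finset.univ : Finset ι) (f := fun j t =>
      c j * (dE A' (t + ℓ j) - dE A' t)) (fun j _ => h1 j)
    refine (h3.const_mul s).congr (fun t _ => ?_)
    simp only [Finset.sum_apply]
  have hle : x - ℓ i ≤ x := by linarith [hℓ i]
  have h5 : ∫ t in (x - ℓ i)..x, (-W) ≤
      ∫ t in (x - ℓ i)..x, s * ∑ j, c j * (dE A' (t + ℓ j) - dE A' t) := by
    rw [intervalIntegral.integral_of_le hle, intervalIntegral.integral_of_le hle]
    refine setIntegral_mono_on_ae (integrableOn_const (by simp)) hi.1 measurableSet_Ioc ?_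
    filter_upwards [hG] with t ht htm
    exact ht ⟨htm.1.le, htm.2⟩
  rw [intervalIntegral.integral_const, sub_sub_cancel, smul_eq_mul] at h5
  have h6 := mul_le_mul_of_nonneg_left h5 (hc i).le
  refine le_trans (le_of_eq ?_) h6
  ring

/-- **the combination vanishes** -/
theorem Lim.JJ_zero (hκ : 0 < κ) (h : Lim κ A' C0) (hc : ∀ i, 0 < c i) (hℓ : ∀ i, 0 < ℓ i) {s : ℝ}
    (hs : s = 1 ∨ s = -1) {β : ℕ → ℝ} (hβ : QSeq β) {B a0 : ℝ} (hB : 0 ≤ B) (ha0 : 0 < a0)
    (hyp : HypL A' c ℓ s a0 B β) (x : ℝ) : JJ A' c ℓ s x = 0 := by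
  obtain ⟨J, hJ0, hJ⟩ := h.JJ_bound hκ hc hℓ hs
  set L := ∑ i, ℓ i with hL
  have hL0 : 0 ≤ L := Finset.sum_nonneg fun i _ => (hℓ i).le
  set S := ∑ i, c i * ℓ i with hS
  have hS0 : 0 ≤ S := Finset.sum_nonneg fun i _ => by
    have := hc i
    have := hℓ i
    positivity
  set R := a0 + 2 * L + 1 with hR
  have hR1 : 1 ≤ R := by linarith
  have hJc := h.JJ_cont (c := c) (ℓ := ℓ) hκ s
  set η : ℝ → ℝ := fun x => max (-JJ A' c ℓ s x) 0 with hη
  have hη0 : ∀ x, 0 ≤ η x := fun x => le_max_right _ _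
  have hηm : Measurable η := hJc.measurable.neg.max measurable_const
  have hηJ : ∀ x, η x ≤ J := fun x => max_le ((neg_le_abs _).trans (hJ x)) hJ0
  have hηe : ∀ x, η (-x) = η x := fun x => by
    simp only [hη]
    rw [JJ_even]
  have hP0 : ∀ k x, 0 ≤ ∏ m ∈ Finset.range k, (2 * β m / x) ^ 2 := fun k x =>
    Finset.prod_nonneg fun m _ => sq_nonneg _
  -- the far decay
  have hfar0 : ∀ x, R ≤ x → ∀ k, η x ≤ S * B * ∏ m ∈ Finset.range k, (2 * β m / x) ^ 2 := by
    intro x hx k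
    refine max_le ?_ (mul_nonneg (mul_nonneg hS0 hB) (hP0 k x))
    have := h.JJ_low hκ hc hℓ hβ hB ha0 hyp hx k
    linarith
  have hfar : ∀ x, R ≤ |x| → ∀ k, η x ≤ S * B * ∏ m ∈ Finset.range k, (2 * β m / |x|) ^ 2 := by
    intro x hx k
    rcases abs_cases x with ⟨h1, _⟩ | ⟨h1, _⟩
    · rw [h1] at hx ⊢
      exact hfar0 x hx k
    · rw [h1] at hx ⊢
      rw [← hηe]
      exact hfar0 (-x) hx k
  have hβ' := hβ.shift (R := R) (by linarith)
  set β' : ℕ → ℝ := fun i => 2 * β (i + 1) + R with hβ'd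
  set Q : ℕ → ℝ := fun k => ∏ i ∈ Finset.range k, β' i ^ 2 with hQ
  have hQR : ∀ k, R ^ (2 * k) ≤ Q k := by
    intro k
    have e : R ^ (2 * k) = ∏ _i ∈ Finset.range k, R ^ 2 := by
      rw [Finset.prod_const, Finset.card_range, pow_mul]
    rw [e]
    refine Finset.prod_le_prod (fun i _ => sq_nonneg _) fun i _ => ?_
    have := hβ.pos' (i + 1)
    exact pow_le_pow_left₀ (by linarith) (by simp only [hβ'd]; linarith) 2
  have hQβ : ∀ k, ∏ i ∈ Finset.range (k + 1), (2 * β i) ^ 2 ≤ (2 * β 0) ^ 2 * Q k := by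
    intro k
    rw [Finset.prod_range_succ', mul_comm]
    refine mul_le_mul_of_nonneg_left (Finset.prod_le_prod (fun i _ => sq_nonneg _)
      fun i _ => ?_) (sq_nonneg _)
    have := hβ.pos' (i + 1)
    exact pow_le_pow_left₀ (by linarith) (by simp only [hβ'd]; linarith) 2
  -- pointwise bound for the moments
  set W := J * (1 + R ^ 2) + 2 * (S * B) * (2 * β 0) ^ 2 with hW
  have hSB : 0 ≤ S * B := mul_nonneg hS0 hB
  have hW0 : 0 ≤ W := by positivity
  have hpt : ∀ (k : ℕ) (x : ℝ), η x * x ^ (2 * k) ≤ W * Q k * (1 + x ^ 2)⁻¹ := by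
    intro k x
    have hQ0 : 0 ≤ Q k := Finset.prod_nonneg fun i _ => sq_nonneg _
    rw [← div_eq_mul_inv, le_div_iff₀ (by positivity)]
    by_cases hx : R ≤ |x|
    · have h1 := hfar x hx (k + 1)
      have hx0 : 0 < |x| := by linarith
      have e1 : ∏ m ∈ Finset.range (k + 1), (2 * β m / |x|) ^ 2 =
          (∏ m ∈ Finset.range (k + 1), (2 * β m) ^ 2) / x ^ (2 * (k + 1)) := by
        simp_rw [div_pow, Finset.prod_div_distrib, Finset.prod_const, Finset.card_range,
          sq_abs, ← pow_mul]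
      rw [e1] at h1
      have hx2 : (0 : ℝ) < x ^ 2 := by
        rw [← sq_abs]
        positivity
      have hxk : 0 < x ^ (2 * (k + 1)) := by
        rw [pow_mul]
        positivity
      have hxk0 : 0 ≤ x ^ (2 * k) := by
        rw [pow_mul]
        positivity
      have h2 : 1 + x ^ 2 ≤ 2 * x ^ 2 := by
        have : 1 ≤ x ^ 2 := by
          rw [← sq_abs]
          have : 1 ≤ |x| := hR1.trans hx
          nlinarith
        linarith
      calc η x * x ^ (2 * k) * (1 + x ^ 2) ≤ η x * x ^ (2 * k) * (2 * x ^ 2) :=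
            mul_le_mul_of_nonneg_left h2 (mul_nonneg (hη0 x) hxk0)
        _ = 2 * (η x * x ^ (2 * (k + 1))) := by
            rw [mul_add, pow_add, mul_one]
            ring
        _ ≤ 2 * (S * B * ∏ m ∈ Finset.range (k + 1), (2 * β m) ^ 2) := by
            have h3 := mul_le_mul_of_nonneg_right h1 hxk.le
            rw [mul_div_assoc', div_mul_cancel₀ _ hxk.ne'] at h3
            linarith
        _ ≤ 2 * (S * B * ((2 * β 0) ^ 2 * Q k)) := by
            have := mul_le_mul_of_nonneg_left (hQβ k) hSB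
            linarith
        _ ≤ W * Q k := by
            rw [hW]
            have : 0 ≤ J * (1 + R ^ 2) * Q k := by positivity
            nlinarith
    · push Not at hx
      have h1 : x ^ (2 * k) ≤ R ^ (2 * k) := by
        rw [pow_mul, pow_mul, ← sq_abs]
        exact pow_le_pow_left₀ (sq_nonneg _) (pow_le_pow_left₀ (abs_nonneg _) hx.le 2) k
      have h2 : 1 + x ^ 2 ≤ 1 + R ^ 2 := by
        rw [← sq_abs]
        have := pow_le_pow_left₀ (abs_nonneg _) hx.le 2
        linarith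
      have hxk0 : 0 ≤ x ^ (2 * k) := by
        rw [pow_mul]
        positivity
      calc η x * x ^ (2 * k) * (1 + x ^ 2) ≤ J * R ^ (2 * k) * (1 + R ^ 2) := by
            refine mul_le_mul (mul_le_mul (hηJ x) h1 hxk0 hJ0) h2 (by positivity) (by positivity)
        _ ≤ J * Q k * (1 + R ^ 2) := by
            refine mul_le_mul_of_nonneg_right (mul_le_mul_of_nonneg_left (hQR k) hJ0) (by positivity)
        _ ≤ W * Q k := by
            rw [hW]
            have : 0 ≤ 2 * (S * B) * (2 * β 0) ^ 2 * Q k := by positivity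
            nlinarith
  have hpi := Real.pi_pos
  have hmom : ∀ k : ℕ, ∫⁻ x, ENNReal.ofReal (η x * x ^ (2 * k)) ≤
      ENNReal.ofReal ((W * π + 1) * ∏ i ∈ Finset.range k, β' i ^ 2) := by
    intro k
    have hQ0 : 0 ≤ Q k := Finset.prod_nonneg fun i _ => sq_nonneg _
    have hi : Integrable fun x : ℝ => W * Q k * (1 + x ^ 2)⁻¹ :=
      integrable_inv_one_add_sq.const_mul _
    calc ∫⁻ x, ENNReal.ofReal (η x * x ^ (2 * k)) ≤
          ∫⁻ x, ENNReal.ofReal (W * Q k * (1 + x ^ 2)⁻¹) :=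
          lintegral_mono fun x => ENNReal.ofReal_le_ofReal (hpt k x)
      _ = ENNReal.ofReal (∫ x, W * Q k * (1 + x ^ 2)⁻¹) :=
          (ofReal_integral_eq_lintegral_ofReal hi (Eventually.of_forall fun x => by
            show 0 ≤ W * Q k * (1 + x ^ 2)⁻¹
            positivity)).symm
      _ ≤ _ := by
          refine ENNReal.ofReal_le_ofReal ?_
          rw [integral_const_mul, integral_univ_inv_one_add_sq]
          show W * Q k * π ≤ (W * π + 1) * Q k
          linarith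
  have hz := fun K (hK : TK κ K) => h.JJ_test (c := c) (ℓ := ℓ) hκ hK s
  have hae := high_passQ (H := JJ A' c ℓ s) (η := η) (B := J) (B₁ := W * π + 1) (β := β') hκ
    hJc.measurable (JJ_even s) (fun x => (hJ x).trans (by nlinarith [sq_nonneg x])) hηm hη0 hβ'
    (by positivity) hmom (Eventually.of_forall fun x => by
      have := le_max_left (-JJ A' c ℓ s x) 0
      simp only [hη]
      linarith) hz
  have h1 : JJ A' c ℓ s = fun _ => 0 :=
    (Continuous.ae_eq_iff_eq (μ := volume) hJc continuous_const).1 hae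
  exact congrFun h1 x

/-- **all the lengths are periods** -/
theorem Lim.per (hκ : 0 < κ) (h : Lim κ A' C0) (hc : ∀ i, 0 < c i) (hℓ : ∀ i, 0 < ℓ i) {s : ℝ}
    (hs : s = 1 ∨ s = -1) {β : ℕ → ℝ} (hβ : QSeq β) {B a0 : ℝ} (hB : 0 ≤ B) (ha0 : 0 < a0)
    (hyp : HypL A' c ℓ s a0 B β) (j : ι) : ∀ᵐ x, dE A' (x + ℓ j) = dE A' x :=
  h.periods hκ hc hℓ (by rcases hs with rfl | rfl <;> norm_num)
    (h.JJ_zero hκ hc hℓ hs hβ hB ha0 hyp) j

end

end Pool.Agent.W2helper22.PC
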