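import Pool.Agent.Y744.PCR.Glue
import Pool.Agent.W2helper22.PC.MainQ

/-! # From the windows to the limits -/

set_option autoImplicit false

open MeasureTheory Filter Topology Real
open Pool.Agent.Y744

namespace Pool.Agent.W2helper22.PC

/-- the limits along ultrafilters -/
theorem exists_Lim (RH : RiemannHypothesis) (g : Ultrafilter ℝ) (hgt : (g : Filter ℝ) ≤ atTop) :
    ∃ (A' : ℝ → ℝ) (C0 : ℝ), Lim (1 / 2) A' C0 ∧
      ∀ y, Tendsto (fun T => Aa T y) (g : Filter ℝ) (𝓝 (A' y)) := by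
  obtain ⟨A', C0, h1, h2, h3, h4, h5, h6⟩ := exists_limit RH g hgt
  exact ⟨A', C0, ⟨h1, h2, h3, h4, h6⟩, h5⟩

section

variable {ι : Type*} [Fintype ι] {c ℓ : ι → ℝ}

/-- **the one-sided condition passes to the limit** -/
theorem hyp_limit {g : Filter ℝ} [NeBot g] (hg : g ≤ atTop) {A' : ℝ → ℝ} (hA : Monotone A')
    (hlim : ∀ y, Tendsto (fun T => Aa T y) g (𝓝 (A' y))) (hc : ∀ i, 0 < c i) (hℓ : ∀ i, 0 < ℓ i)
    {s : ℝ} (hs : s = 1 ∨ s = -1) {Q : Set ℝ} {a0 : ℝ} (ha0 : 0 < a0)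
    (hQ : Set.Ici a0 ⊆ closure Q) {w : ℕ → ℝ → ℝ} (hw : ∀ k a, 0 < a → ContinuousAt (w k) a)
    (hyp : ∀ a ∈ Q, ∀ k, ∀ ε, 0 < ε → ∀ᶠ T in g,
      s * ∑ j, c j * (Nr T a (a + ℓ j) - (gp (a + ℓ j) - gp a)) ≤ w k a + ε) :
    ∀ᵐ a, a0 ≤ a → ∀ k, -(2 * w k a) ≤
      -s * ∑ j, c j * (A' (a + ℓ j) - A' a - 2 * (gp (a + ℓ j) - gp a)) := by
  have hcn : ∀ᵐ t : ℝ, ContinuousAt A' t :=
    (hA.countable_not_continuousAt.ae_notMem volume).mono fun x hx => by
      by_contra hc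
      exact hx hc
  have hcn2 : ∀ᵐ t : ℝ, ∀ j, ContinuousAt A' (t + ℓ j) := by
    rw [ae_all_iff]
    exact fun j => (measurePreserving_add_right (volume : Measure ℝ) (ℓ j)).quasiMeasurePreserving.ae
      hcn
  filter_upwards [hcn, hcn2] with a h1 h2 ha k
  have hapos : 0 < a := by linarith
  obtain ⟨q0, hq0Q, hq0⟩ := mem_closure_iff_seq_limit.1 (hQ (Set.mem_Ici.2 ha))
  have hgpc : ∀ x : ℝ, ContinuousAt gp x := fun x => gp_cont.continuousAt
  -- the inequality at the points of `Q`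
  have key : ∀ q ∈ Q, 0 < q → ∀ η, 0 < η →
      s * ∑ j, c j * (A' (q + ℓ j) - (if s = 1 then A' q else A' (q - η)) -
        2 * (gp (q + ℓ j) - gp q)) ≤ 2 * w k q := by
    intro q hq hq0 η hη
    refine le_of_forall_pos_le_add fun ε hε => ?_
    have h3 := hyp q hq k (ε / 2) (by positivity)
    have hlimj : Tendsto (fun T => s * ∑ j, c j * (Aa T (q + ℓ j) -
        (if s = 1 then Aa T q else Aa T (q - η)) - 2 * (gp (q + ℓ j) - gp q))) g
        (𝓝 (s * ∑ j, c j * (A' (q + ℓ j) - (if s = 1 then A' q else A' (q - η)) -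
        2 * (gp (q + ℓ j) - gp q)))) := by
      refine (tendsto_finsetSum _ fun j _ => ?_).const_mul s
      refine (((hlim (q + ℓ j)).sub ?_).sub_const _).const_mul _
      split_ifs
      · exact hlim q
      · exact hlim (q - η)
    refine le_of_tendsto hlimj ?_
    filter_upwards [h3, hg (eventually_gt_atTop (1 : ℝ))] with T hT hT1
    have e1 : ∀ j, Ww T q (ℓ j) = 2 * Nr T q (q + ℓ j) := fun j => Ww_eq hq0
    have e2 : ∑ j, c j * (Nr T q (q + ℓ j) - (gp (q + ℓ j) - gp q)) =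
        (1 / 2) * ∑ j, c j * (Ww T q (ℓ j) - 2 * (gp (q + ℓ j) - gp q)) := by
      rw [Finset.mul_sum]
      refine Finset.sum_congr rfl fun j _ => ?_
      rw [e1]
      ring
    rw [e2] at hT
    rcases hs with rfl | rfl
    · simp only [if_true]
      have h4 : ∑ j, c j * (Aa T (q + ℓ j) - Aa T q - 2 * (gp (q + ℓ j) - gp q)) ≤
          ∑ j, c j * (Ww T q (ℓ j) - 2 * (gp (q + ℓ j) - gp q)) := by
        refine Finset.sum_le_sum fun j _ => mul_le_mul_of_nonneg_left ?_ (hc j).le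
        have := Ww_lower (a := q) (ℓ := ℓ j) hT1
        linarith
      linarith
    · have hne : ¬ (-1 : ℝ) = 1 := by norm_num
      simp only [if_neg hne]
      have h4 : ∑ j, c j * (Ww T q (ℓ j) - 2 * (gp (q + ℓ j) - gp q)) ≤
          ∑ j, c j * (Aa T (q + ℓ j) - Aa T (q - η) - 2 * (gp (q + ℓ j) - gp q)) := by
        refine Finset.sum_le_sum fun j _ => mul_le_mul_of_nonneg_left ?_ (hc j).le
        have := Ww_upper (a := q) (ℓ := ℓ j) (η := η) hT1 hη (hℓ j)
        linarith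
      linarith
  -- the limit along the sequence
  have hη : Tendsto (fun n : ℕ => 1 / ((n : ℝ) + 1)) atTop (𝓝 0) :=
    tendsto_one_div_add_atTop_nhds_zero_nat
  have hqη : Tendsto (fun n : ℕ => q0 n - 1 / ((n : ℝ) + 1)) atTop (𝓝 a) := by
    have := hq0.sub hη
    rwa [sub_zero] at this
  have hL : Tendsto (fun n => s * ∑ j, c j * (A' (q0 n + ℓ j) -
      (if s = 1 then A' (q0 n) else A' (q0 n - 1 / ((n : ℝ) + 1))) -
      2 * (gp (q0 n + ℓ j) - gp (q0 n)))) atTop
      (𝓝 (s * ∑ j, c j * (A' (a + ℓ j) - A' a - 2 * (gp (a + ℓ j) - gp a)))) := by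
    refine (tendsto_finsetSum _ fun j _ => ?_).const_mul s
    have h5 : Tendsto (fun n => q0 n + ℓ j) atTop (𝓝 (a + ℓ j)) := hq0.add_const _
    refine ((((h2 j).tendsto.comp h5).sub ?_).sub ((((hgpc (a + ℓ j)).tendsto.comp h5).sub
      ((hgpc a).tendsto.comp hq0)).const_mul 2)).const_mul _
    split_ifs
    · exact h1.tendsto.comp hq0
    · exact h1.tendsto.comp hqη
  have hR : Tendsto (fun n => 2 * w k (q0 n)) atTop (𝓝 (2 * w k a)) :=
    ((hw k a hapos).tendsto.comp hq0).const_mul 2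
  have hfin : s * ∑ j, c j * (A' (a + ℓ j) - A' a - 2 * (gp (a + ℓ j) - gp a)) ≤ 2 * w k a := by
    refine le_of_tendsto_of_tendsto hL hR ?_
    filter_upwards [hq0.eventually_const_lt hapos] with n hn
    exact key (q0 n) (hq0Q n) hn _ (by positivity)
  rw [neg_mul]
  exact neg_le_neg hfin

end

/-- the weights -/
lemma w_cont (B : ℝ) (β : ℕ → ℝ) (k : ℕ) {a : ℝ} (ha : 0 < a) :
    ContinuousAt (fun a : ℝ => B * ∏ m ∈ Finset.range k, (β m / a) ^ 2) a := by
  refine continuousAt_const.mul ?_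
  refine tendsto_finsetProd _ fun m _ => ?_
  exact ((continuousAt_const.div continuousAt_id ha.ne').pow 2)

/-- the group of the periods of the discrepancy -/
def perG (A' : ℝ → ℝ) : AddSubgroup ℝ where
  carrier := {l | ∀ᵐ x, dE A' (x + l) = dE A' x}
  zero_mem' := by
    show ∀ᵐ x, dE A' (x + 0) = dE A' x
    exact Eventually.of_forall fun x => by rw [add_zero]
  add_mem' := fun {a b} ha hb => by
    show ∀ᵐ x, dE A' (x + (a + b)) = dE A' x
    have h1 := (measurePreserving_add_right (volume : Measure ℝ) a).quasiMeasurePreserving.ae hb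
    filter_upwards [ha, h1] with x hx hx1
    rw [← add_assoc, hx1, hx]
  neg_mem' := fun {a} ha => by
    show ∀ᵐ x, dE A' (x + -a) = dE A' x
    have h1 := (measurePreserving_add_right (volume : Measure ℝ) (-a)).quasiMeasurePreserving.ae ha
    filter_upwards [h1] with x hx
    rw [neg_add_cancel_right] at hx
    exact hx.symm

lemma mem_perG {A' : ℝ → ℝ} {l : ℝ} : l ∈ perG A' ↔ ∀ᵐ x, dE A' (x + l) = dE A' x := Iff.rfl

end Pool.Agent.W2helper22.PC
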