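import Pool.Agent.W2helper22.PC.Bdd

/-! # One one-sided inequality for a positive combination of windows forces all the lengths to be
periods -/

set_option autoImplicit false

open MeasureTheory Filter Topology Real
open Pool.Agent.Y744

namespace Pool.Agent.W2helper22.PC

/-- the primitive of the discrepancy -/
noncomputable def prim (A' : ℝ → ℝ) (x : ℝ) : ℝ := ∫ t in (0 : ℝ)..x, dE A' t

section

variable {κ : ℝ} {A' : ℝ → ℝ} {C0 : ℝ}

lemma Lim.loc (hκ : 0 < κ) (h : Lim κ A' C0) (a b : ℝ) : IntervalIntegrable (dE A') volume a b := by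
  obtain ⟨C, hC, hb⟩ := h.bounded hκ
  refine (intervalIntegrable_const (c := C)).mono_fun h.meas.aestronglyMeasurable
    (Eventually.of_forall fun x => ?_)
  show ‖dE A' x‖ ≤ ‖C‖
  rw [Real.norm_eq_abs, Real.norm_eq_abs]
  exact (hb x).trans (le_abs_self _)

lemma Lim.prim_sub (hκ : 0 < κ) (h : Lim κ A' C0) (a b : ℝ) :
    prim A' b - prim A' a = ∫ t in a..b, dE A' t :=
  intervalIntegral.integral_interval_sub_left (h.loc hκ _ _) (h.loc hκ _ _)

lemma Lim.prim_cont (hκ : 0 < κ) (h : Lim κ A' C0) : Continuous (prim A') :=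
  intervalIntegral.continuous_primitive (h.loc hκ) 0

lemma prim_even (A' : ℝ → ℝ) (x : ℝ) : prim A' (-x) = prim A' x := by
  unfold prim
  have h1 : ∫ t in (0 : ℝ)..x, dE A' (-t) = ∫ t in (-x)..(-0), dE A' t :=
    intervalIntegral.integral_comp_neg _
  have h2 : ∫ t in (0 : ℝ)..x, dE A' (-t) = -∫ t in (0 : ℝ)..x, dE A' t := by
    rw [← intervalIntegral.integral_neg]
    exact intervalIntegral.integral_congr fun t _ => dE_odd A' t
  rw [h2, neg_zero, intervalIntegral.integral_symm 0 (-x)] at h1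
  linarith

lemma Lim.prim_lip (hκ : 0 < κ) (h : Lim κ A' C0) {C : ℝ} (hb : ∀ x, |dE A' x| ≤ C) (a b : ℝ) :
    |prim A' b - prim A' a| ≤ C * |b - a| := by
  rw [h.prim_sub hκ]
  have := intervalIntegral.norm_integral_le_of_norm_le_const (a := a) (b := b) (f := dE A') (C := C)
    (fun x _ => by rw [Real.norm_eq_abs]; exact hb x)
  rwa [Real.norm_eq_abs] at this

/-- translates of the primitive annihilate the test functions -/
lemma Lim.prim_test (hκ : 0 < κ) (h : Lim κ A' C0) {K : ℝ → ℝ} (hK : TK κ K) (p q : ℝ) :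
    Integrable (fun x => (prim A' (x + p) - prim A' (x + q)) * ct K x) ∧
    ∫ x, (prim A' (x + p) - prim A' (x + q)) * ct K x = 0 := by
  obtain ⟨C, hC, hb⟩ := h.bounded hκ
  obtain ⟨D, hD0, hD⟩ := hK.decay 2
  have hφc : Continuous (ct K) := hK.ct_cont
  have hφi : Integrable (ct K) := by
    refine (integrable_inv_one_add_sq.const_mul D).mono' hφc.aestronglyMeasurable
      (Eventually.of_forall fun x => ?_)
    rw [Real.norm_eq_abs]
    refine (hD x).trans ?_
    rw [← div_eq_mul_inv]
    have : (1 : ℝ) + x ^ 2 ≤ (1 + x ^ 2) ^ 2 := by nlinarith [sq_nonneg x]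
    exact div_le_div_of_nonneg_left hD0 (by positivity) this
  have hint : ∀ p q : ℝ, Integrable (fun x => (prim A' (x + p) - prim A' (x + q)) * ct K x) := by
    intro p q
    have hc := h.prim_cont hκ
    refine (hφi.abs.const_mul (C * |p - q|)).mono'
      (((hc.comp (by fun_prop)).sub (hc.comp (by fun_prop))).mul hφc).aestronglyMeasurable
      (Eventually.of_forall fun x => ?_)
    rw [Real.norm_eq_abs, abs_mul]
    refine mul_le_mul_of_nonneg_right ?_ (abs_nonneg _)
    have := h.prim_lip hκ hb (x + q) (x + p)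
    rwa [add_sub_add_left_eq_sub] at this
  refine ⟨hint p q, ?_⟩
  have key : ∀ p q : ℝ, q ≤ p → ∫ x, (prim A' (x + p) - prim A' (x + q)) * ct K x = 0 := by
    intro p q hqp
    have e1 : ∀ x, (prim A' (x + p) - prim A' (x + q)) * ct K x =
        ∫ t in Set.Ioc q p, dE A' (x + t) * ct K x := by
      intro x
      rw [h.prim_sub hκ, integral_mul_const, ← intervalIntegral.integral_of_le hqp,
        intervalIntegral.integral_comp_add_left]
    simp_rw [e1]
    have hmeas : Measurable fun z : ℝ × ℝ => dE A' (z.1 + z.2) * ct K z.1 :=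
      (h.meas.comp (by fun_prop)).mul (hφc.measurable.comp measurable_fst)
    have hfin : IsFiniteMeasure (volume.restrict (Set.Ioc q p)) := by
      constructor
      rw [Measure.restrict_apply_univ]
      exact measure_Ioc_lt_top
    have hprod : Integrable (Function.uncurry fun x t : ℝ => dE A' (x + t) * ct K x)
        (volume.prod (volume.restrict (Set.Ioc q p))) := by
      have h1 : Integrable (fun z : ℝ × ℝ => C * |ct K z.1|)
          (volume.prod (volume.restrict (Set.Ioc q p))) :=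
        (hφi.abs.const_mul C).comp_fst _
      refine h1.mono' hmeas.aestronglyMeasurable (Eventually.of_forall fun z => ?_)
      show ‖dE A' (z.1 + z.2) * ct K z.1‖ ≤ C * |ct K z.1|
      rw [Real.norm_eq_abs, abs_mul]
      exact mul_le_mul_of_nonneg_right (hb _) (abs_nonneg _)
    rw [integral_integral_swap hprod]
    have e2 : ∀ t : ℝ, ∫ x, dE A' (x + t) * ct K x = 0 := fun t => h.conv_zero hK t
    simp_rw [e2]
    simp
  rcases le_total q p with h1 | h1
  · exact key p q h1
  · have h2 := key q p h1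
    have e3 : ∫ x, (prim A' (x + p) - prim A' (x + q)) * ct K x =
        -∫ x, (prim A' (x + q) - prim A' (x + p)) * ct K x := by
      rw [← integral_neg]
      refine integral_congr_ae (Eventually.of_forall fun x => ?_)
      show (prim A' (x + p) - prim A' (x + q)) * ct K x =
        -((prim A' (x + q) - prim A' (x + p)) * ct K x)
      ring
    rw [e3, h2, neg_zero]

/-- the discrepancy is continuous outside of a countable set -/
lemma Lim.cont_ae (h : Lim κ A' C0) : ∀ᵐ x, ContinuousAt (dE A') x := by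
  have h1 : ∀ᵐ x, ContinuousAt (fun x => dE A' x + 2 * gp x) x :=
    (h.E_mono.countable_not_continuousAt.ae_notMem volume).mono fun x hx => by
      by_contra hc
      exact hx hc
  filter_upwards [h1] with x hx
  have h2 : ContinuousAt (fun x => (dE A' x + 2 * gp x) - 2 * gp x) x :=
    hx.sub (continuousAt_const.mul gp_cont.continuousAt)
  refine h2.congr (Eventually.of_forall fun y => ?_)
  show dE A' y + 2 * gp y - 2 * gp y = dE A' y
  ring

lemma Lim.prim_deriv (hκ : 0 < κ) (h : Lim κ A' C0) {x : ℝ} (hx : ContinuousAt (dE A') x) :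
    HasDerivAt (prim A') (dE A' x) x := by
  refine intervalIntegral.integral_hasDerivAt_right (h.loc hκ _ _) ?_ hx
  exact ⟨Set.univ, Filter.univ_mem, h.meas.aestronglyMeasurable⟩

variable {ι : Type*} [Fintype ι] {c ℓ : ι → ℝ}

/-- backward combination of the primitive -/
noncomputable def ff (A' : ℝ → ℝ) (c ℓ : ι → ℝ) (x : ℝ) : ℝ :=
  ∑ i, c i * (prim A' x - prim A' (x - ℓ i))

/-- the even function to which the theorem on spectral gaps is applied -/
noncomputable def JJ (A' : ℝ → ℝ) (c ℓ : ι → ℝ) (s x : ℝ) : ℝ :=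
  s * ∑ j, ∑ i, c j * c i *
    ((prim A' (x + ℓ j) - prim A' (x + (ℓ j - ℓ i))) + (prim A' (x + -ℓ i) - prim A' (x + 0)))

lemma JJ_eq (s x : ℝ) :
    JJ A' c ℓ s x = s * ∑ j, c j * (ff A' c ℓ (x + ℓ j) - ff A' c ℓ x) := by
  unfold JJ ff
  congr 1
  refine Finset.sum_congr rfl fun j _ => ?_
  rw [← Finset.sum_sub_distrib, Finset.mul_sum]
  refine Finset.sum_congr rfl fun i _ => ?_
  rw [show x + ℓ j - ℓ i = x + (ℓ j - ℓ i) by ring, ← sub_eq_add_neg x, add_zero]
  ring

lemma JJ_even (s x : ℝ) : JJ A' c ℓ s (-x) = JJ A' c ℓ s x := by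
  unfold JJ
  congr 1
  rw [Finset.sum_comm]
  refine Finset.sum_congr rfl fun j _ => Finset.sum_congr rfl fun i _ => ?_
  have e1 : prim A' (-x + ℓ i) = prim A' (x + -ℓ i) := by
    rw [← prim_even A' (x + -ℓ i)]
    congr 1
    ring
  have e2 : prim A' (-x + (ℓ i - ℓ j)) = prim A' (x + (ℓ j - ℓ i)) := by
    rw [← prim_even A' (x + (ℓ j - ℓ i))]
    congr 1
    ring
  have e3 : prim A' (-x + -ℓ j) = prim A' (x + ℓ j) := by
    rw [← prim_even A' (x + ℓ j)]
    congr 1
    ring
  have e4 : prim A' (-x + 0) = prim A' (x + 0) := by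
    rw [add_zero, add_zero, prim_even]
  rw [e1, e2, e3, e4]
  ring

lemma Lim.JJ_test (hκ : 0 < κ) (h : Lim κ A' C0) {K : ℝ → ℝ} (hK : TK κ K) (s : ℝ) :
    ∫ x, JJ A' c ℓ s x * ct K x = 0 := by
  have e : ∀ x, JJ A' c ℓ s x * ct K x = s * ∑ j, ∑ i, c j * c i *
      ((prim A' (x + ℓ j) - prim A' (x + (ℓ j - ℓ i))) * ct K x +
        (prim A' (x + -ℓ i) - prim A' (x + 0)) * ct K x) := by
    intro x
    unfold JJ
    rw [mul_assoc, Finset.sum_mul]
    congr 1
    refine Finset.sum_congr rfl fun j _ => ?_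
    rw [Finset.sum_mul]
    refine Finset.sum_congr rfl fun i _ => ?_
    ring
  simp_rw [e]
  have hi : ∀ i j : ι, Integrable fun x => c j * c i *
      ((prim A' (x + ℓ j) - prim A' (x + (ℓ j - ℓ i))) * ct K x +
        (prim A' (x + -ℓ i) - prim A' (x + 0)) * ct K x) := fun i j =>
    ((h.prim_test hκ hK _ _).1.add (h.prim_test hκ hK _ _).1).const_mul _
  rw [integral_const_mul, integral_finsetSum _ fun j _ => integrable_finsetSum _ fun i _ => hi i j]
  have h0 : ∑ j, ∫ x, ∑ i, c j * c i *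
      ((prim A' (x + ℓ j) - prim A' (x + (ℓ j - ℓ i))) * ct K x +
        (prim A' (x + -ℓ i) - prim A' (x + 0)) * ct K x) = 0 := by
    refine Finset.sum_eq_zero fun j _ => ?_
    rw [integral_finsetSum _ fun i _ => hi i j]
    refine Finset.sum_eq_zero fun i _ => ?_
    rw [integral_const_mul, integral_add (h.prim_test hκ hK _ _).1 (h.prim_test hκ hK _ _).1,
      (h.prim_test hκ hK _ _).2, (h.prim_test hκ hK _ _).2]
    ring
  rw [h0, mul_zero]

lemma Lim.ff_bound (hκ : 0 < κ) (h : Lim κ A' C0) {C : ℝ} (hb : ∀ x, |dE A' x| ≤ C)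
    (hc : ∀ i, 0 < c i) (hℓ : ∀ i, 0 < ℓ i) (x : ℝ) :
    |ff A' c ℓ x| ≤ ∑ i, c i * (C * ℓ i) := by
  unfold ff
  refine (Finset.abs_sum_le_sum_abs _ _).trans (Finset.sum_le_sum fun i _ => ?_)
  rw [abs_mul, abs_of_pos (hc i)]
  refine mul_le_mul_of_nonneg_left ?_ (hc i).le
  have := h.prim_lip hκ hb (x - ℓ i) x
  rwa [sub_sub_cancel, abs_of_pos (hℓ i)] at this

/-- if the combination vanishes then all the lengths are periods of the discrepancy -/
lemma Lim.periods (hκ : 0 < κ) (h : Lim κ A' C0) (hc : ∀ i, 0 < c i) (hℓ : ∀ i, 0 < ℓ i) {s : ℝ}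
    (hs : s ≠ 0) (hJ : ∀ x, JJ A' c ℓ s x = 0) (j : ι) : ∀ᵐ x, dE A' (x + ℓ j) = dE A' x := by
  obtain ⟨C, hC, hb⟩ := h.bounded hκ
  -- the backward combination has the periods `ℓ j`
  have h1 : ∀ j x, ff A' c ℓ (x + ℓ j) = ff A' c ℓ x := fun j x => by
    refine liou hc (h.ff_bound hκ hb hc hℓ) (fun x => ?_) j x
    have := hJ x
    rw [JJ_eq] at this
    exact (mul_eq_zero.1 this).resolve_left hs
  set g : ℝ → ℝ := fun x => prim A' (x + ℓ j) - prim A' x with hg
  have hgb : ∀ x, |g x| ≤ C * ℓ j := fun x => by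
    have := h.prim_lip hκ hb x (x + ℓ j)
    rwa [add_sub_cancel_left, abs_of_pos (hℓ j)] at this
  have h2 : ∀ x, ∑ i, c i * (g (x + -ℓ i) - g x) = 0 := by
    intro x
    have h3 := h1 j x
    have h4 : ∑ i, c i * (g (x + -ℓ i) - g x) = -(ff A' c ℓ (x + ℓ j) - ff A' c ℓ x) := by
      unfold ff
      rw [← Finset.sum_sub_distrib, ← Finset.sum_neg_distrib]
      refine Finset.sum_congr rfl fun i _ => ?_
      simp only [hg]
      rw [show x + -ℓ i + ℓ j = x + ℓ j - ℓ i by ring, ← sub_eq_add_neg]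
      ring
    rw [h4, h3, sub_self, neg_zero]
  have h3 : ∀ x, g (x + -ℓ j) = g x := fun x =>
    liou (ℓ := fun i => -ℓ i) hc hgb (fun x => h2 x) j x
  have h4 : ∀ x, g (x + ℓ j) = g x := fun x => by
    have := h3 (x + ℓ j)
    rw [add_neg_cancel_right] at this
    exact this.symm
  have h5 : ∀ (n : ℕ) (x : ℝ), g (x + n * ℓ j) = g x := by
    intro n x
    induction n with
    | zero => simp
    | succ n ih =>
      rw [show x + ((n + 1 : ℕ) : ℝ) * ℓ j = x + n * ℓ j + ℓ j by push_cast; ring, h4, ih]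
  have h6 : ∀ (n : ℕ) (x : ℝ), prim A' (x + n * ℓ j) - prim A' x = n * g x := by
    intro n x
    induction n with
    | zero => simp
    | succ n ih =>
      have h7 := h5 n x
      simp only [hg] at h7
      have e : x + ((n + 1 : ℕ) : ℝ) * ℓ j = x + n * ℓ j + ℓ j := by push_cast; ring
      rw [e]
      have h8 : prim A' (x + n * ℓ j + ℓ j) = g x + prim A' (x + n * ℓ j) := by
        simp only [hg]
        linarith
      rw [h8]
      push_cast
      linarith
  -- the increments are constant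
  have h7 : ∀ x y, g x = g y := by
    intro x y
    by_contra hne
    have hpos : 0 < |g x - g y| := abs_pos.2 (sub_ne_zero.2 hne)
    obtain ⟨n, hn⟩ := exists_nat_gt (2 * (C * |x - y|) / |g x - g y|)
    rw [div_lt_iff₀ hpos] at hn
    have e1 : (n : ℝ) * (g x - g y) = (prim A' (x + n * ℓ j) - prim A' (y + n * ℓ j)) -
        (prim A' x - prim A' y) := by
      have := h6 n x
      have := h6 n y
      linarith
    have e2 : (n : ℝ) * |g x - g y| = |(n : ℝ) * (g x - g y)| := by
      rw [abs_mul, abs_of_nonneg (Nat.cast_nonneg n : (0 : ℝ) ≤ n)]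
    rw [e2, e1] at hn
    have h8 := abs_sub (prim A' (x + n * ℓ j) - prim A' (y + n * ℓ j)) (prim A' x - prim A' y)
    have h9 := h.prim_lip hκ hb (y + n * ℓ j) (x + n * ℓ j)
    have h10 := h.prim_lip hκ hb y x
    rw [add_sub_add_right_eq_sub] at h9
    linarith
  -- differentiate
  have hca := h.cont_ae
  have hcb := (measurePreserving_add_right (volume : Measure ℝ) (ℓ j)).quasiMeasurePreserving.ae hca
  filter_upwards [hca, hcb] with x hx1 hx2
  have d1 := h.prim_deriv hκ hx1
  have d2 : HasDerivAt (fun x => prim A' (x + ℓ j)) (dE A' (x + ℓ j)) x := by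
    have := (h.prim_deriv hκ hx2).comp_add_const x (ℓ j)
    exact this
  have d3 : HasDerivAt g (dE A' (x + ℓ j) - dE A' x) x := d2.sub d1
  have d4 : HasDerivAt g 0 x := by
    have : g = fun _ => g 0 := funext fun y => h7 y 0
    rw [this]
    exact hasDerivAt_const x _
  have := d3.unique d4
  linarith

end

end Pool.Agent.W2helper22.PC
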